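import Pool.Agent.Lib.MP_3a897b_co.Reduce

/-!
# The constructions
-/

namespace Pool.Agent.Lib.MP_3a897b_co

universe u

/-- Odd numbers up to `3 h` from `{1, 3}`, for odd `h`. -/
theorem rep13 {h k : ℤ} (hh : h % 2 = 1) (hk : k % 2 = 1) (hk1 : 1 ≤ k) (hk3 : k ≤ 3 * h) :
    ∃ x y : ℤ, |x| + |y| = h ∧ x * 1 + y * 3 = k := by
  rcases Int.lt_or_le k h with h1 | h1
  · by_cases h4 : (k + h) % 4 = 0
    · refine ⟨(k + h) / 4 - h, (k + h) / 4, ?_, ?_⟩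
      · rw [abs_of_nonpos (by omega), abs_of_nonneg (by omega)]; omega
      · omega
    · refine ⟨h - (h - k) / 4, -((h - k) / 4), ?_, ?_⟩
      · rw [abs_of_nonneg (by omega), abs_of_nonpos (by omega)]; omega
      · omega
  · refine ⟨h - (k - h) / 2, (k - h) / 2, ?_, ?_⟩
    · rw [abs_of_nonneg (by omega), abs_of_nonneg (by omega)]; omega
    · omega

/-- Odd numbers up to `n` modulo `n` from `{3, 5}`, for `h ≡ 2 (mod 4)`. -/
theorem rep35 {h n k : ℤ} (hh : h % 4 = 2) (hn : n % 2 = 1) (hn5 : 2 * n ≤ 5 * h)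
    (hk : k % 2 = 1) (hk1 : 1 ≤ k) (hkn : k ≤ n) :
    ∃ x y : ℤ, |x| + |y| = h ∧ n ∣ x * 3 + y * 5 - k := by
  rcases Int.lt_or_le k (3 * h - n) with h1 | h1
  · have h8 : (k + 3 * h + n) % 8 = 0 ∨ (k + 3 * h - n) % 8 = 0 ∨ (3 * h + n - k) % 8 = 0 ∨
        (3 * h - n - k) % 8 = 0 := by omega
    rcases h8 with h8 | h8 | h8 | h8
    · refine ⟨(k + 3 * h + n) / 8 - h, (k + 3 * h + n) / 8, ?_, ⟨1, by omega⟩⟩
      rw [abs_of_nonpos (by omega), abs_of_nonneg (by omega)]; omega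
    · refine ⟨(k + 3 * h - n) / 8 - h, (k + 3 * h - n) / 8, ?_, ⟨-1, by omega⟩⟩
      rw [abs_of_nonpos (by omega), abs_of_nonneg (by omega)]; omega
    · refine ⟨h - (3 * h + n - k) / 8, -((3 * h + n - k) / 8), ?_, ⟨-1, by omega⟩⟩
      rw [abs_of_nonneg (by omega), abs_of_nonpos (by omega)]; omega
    · refine ⟨h - (3 * h - n - k) / 8, -((3 * h - n - k) / 8), ?_, ⟨1, by omega⟩⟩
      rw [abs_of_nonneg (by omega), abs_of_nonpos (by omega)]; omega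
  · refine ⟨h - (k + n - 3 * h) / 2, (k + n - 3 * h) / 2, ?_, ⟨1, by omega⟩⟩
    rw [abs_of_nonneg (by omega), abs_of_nonneg (by omega)]; omega

/-- Residues modulo `n ≤ 2 h + 1` from `{0, 1}`. -/
theorem rep01 {h n k : ℤ} (hn5 : n ≤ 2 * h + 1) (hk1 : 0 ≤ k) (hkn : k < n) :
    ∃ x y : ℤ, |x| + |y| = h ∧ n ∣ x * 0 + y * 1 - k := by
  rcases Int.lt_or_le h k with h1 | h1
  · refine ⟨h - (n - k), k - n, ?_, ⟨-1, by ring⟩⟩
    rw [abs_of_nonneg (by omega), abs_of_nonpos (by omega)]; ring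
  · refine ⟨h - k, k, ?_, ⟨0, by ring⟩⟩
    rw [abs_of_nonneg (by omega), abs_of_nonneg (by omega)]; ring

/-- From odd residues to all residues. -/
theorem rep_all {h n u v : ℤ} (hn : n % 2 = 1)
    (H : ∀ k : ℤ, k % 2 = 1 → 1 ≤ k → k ≤ n →
      ∃ x y : ℤ, |x| + |y| = h ∧ n ∣ x * u + y * v - k) :
    ∀ k : ℤ, 0 ≤ k → k < n → ∃ x y : ℤ, |x| + |y| = h ∧ n ∣ x * u + y * v - k := by
  intro k hk0 hkn
  rcases Int.emod_two_eq_zero_or_one k with h0 | h1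
  · obtain ⟨x, y, hxy, c, hc⟩ := H (n - k) (by omega) (by omega) (by omega)
    refine ⟨-x, -y, by rwa [abs_neg, abs_neg], ⟨-c - 1, ?_⟩⟩
    linear_combination (-1 : ℤ) * hc
  · exact H k h1 (by omega) (by omega)

variable {G : Type u} [AddCommGroup G]

theorem spans_of_rep [Finite G] {g : G} (hg : ∀ z : G, z ∈ AddSubgroup.zmultiples g) {h : ℕ}
    {u v : ℤ} (H : ∀ k : ℤ, 0 ≤ k → k < (Nat.card G : ℤ) →
      ∃ x y : ℤ, |x| + |y| = h ∧ (Nat.card G : ℤ) ∣ x * u + y * v - k) :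
    Spans h (u • g) (v • g) := by
  intro z
  obtain ⟨k, hk⟩ := AddSubgroup.mem_zmultiples_iff.mp (hg z)
  have hord : addOrderOf g = Nat.card G := addOrderOf_eq_card_of_forall_mem_zmultiples hg
  have hzero : ∀ m : ℤ, m • g = 0 ↔ (Nat.card G : ℤ) ∣ m := by
    intro m
    rw [← hord, addOrderOf_dvd_iff_zsmul_eq_zero]
  have hpos : (0 : ℤ) < Nat.card G := by exact_mod_cast Nat.card_pos
  obtain ⟨x, y, hxy, hdvd⟩ := H (k % (Nat.card G : ℤ)) (Int.emod_nonneg _ hpos.ne')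
    (Int.emod_lt_of_pos _ hpos)
  refine ⟨x, y, hxy, ?_⟩
  rw [← hk, ← sub_eq_zero, ← mul_smul, ← mul_smul, ← add_smul, ← sub_smul, hzero]
  have h1 : (Nat.card G : ℤ) ∣ k - k % (Nat.card G : ℤ) := Int.dvd_self_sub_emod
  have e : x * u + y * v - k = (x * u + y * v - k % (Nat.card G : ℤ)) -
      (k - k % (Nat.card G : ℤ)) := by ring
  rw [e]
  exact dvd_sub hdvd h1

theorem ne_of_not_dvd [Finite G] {g : G} (hg : ∀ z : G, z ∈ AddSubgroup.zmultiples g)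
    {u v : ℤ} (h : ¬ (Nat.card G : ℤ) ∣ u - v) : u • g ≠ v • g := by
  intro heq
  apply h
  have hord : addOrderOf g = Nat.card G := addOrderOf_eq_card_of_forall_mem_zmultiples hg
  rw [← hord, addOrderOf_dvd_iff_zsmul_eq_zero, sub_smul, heq, sub_self]

end Pool.Agent.Lib.MP_3a897b_co
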