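import Pool.Agent.Lib.MP_3a897b_co.Construct

/-!
# Further constructions, for `4 ∣ h`
-/

namespace Pool.Agent.Lib.MP_3a897b_co

/-- Odd residues modulo `n` from `{1, 5}`, for `4 ∣ h`, `3 ∤ h`, `n ≡ h (mod 3)`. -/
theorem rep15 {h n k : ℤ} (hh : h % 4 = 0) (hh3 : h % 3 ≠ 0) (hn : n % 2 = 1)
    (hn3 : n % 3 = h % 3) (hn2 : 2 * h ≤ n) (hn5 : 2 * n ≤ 5 * h)
    (hk : k % 2 = 1) (hk1 : 1 ≤ k) (hkn : k ≤ n) :
    ∃ x y : ℤ, |x| + |y| = h ∧ n ∣ x * 1 + y * 5 - k := by
  by_cases h1 : (k + n) % 4 = 0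
  · refine ⟨h - (k + n - h) / 4, (k + n - h) / 4, ?_, ⟨1, by omega⟩⟩
    rw [abs_of_nonneg (by omega), abs_of_nonneg (by omega)]; omega
  · rcases Int.lt_or_le (n - h) k with h2 | h2
    · have h3 : (k - n + h) % 3 = 0 ∨ (k + n + h) % 3 = 0 ∨ (h + n - k) % 3 = 0 := by
        have e1 : h % 3 = 1 ∨ h % 3 = 2 := by omega
        have e2 : k % 3 = 0 ∨ k % 3 = 1 ∨ k % 3 = 2 := by omega
        rcases e1 with e1 | e1 <;> rcases e2 with e2 | e2 | e2 <;> omega
      rcases h3 with h3 | h3 | h3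
      · refine ⟨(k - n + h) / 6 - h, (k - n + h) / 6, ?_, ⟨-1, by omega⟩⟩
        rw [abs_of_nonpos (by omega), abs_of_nonneg (by omega)]; omega
      · refine ⟨(k + n + h) / 6 - h, (k + n + h) / 6, ?_, ⟨1, by omega⟩⟩
        rw [abs_of_nonpos (by omega), abs_of_nonneg (by omega)]; omega
      · refine ⟨h - (h + n - k) / 6, -((h + n - k) / 6), ?_, ⟨-1, by omega⟩⟩
        rw [abs_of_nonneg (by omega), abs_of_nonpos (by omega)]; omega
    · refine ⟨-(h - (n - k - h) / 4), -((n - k - h) / 4), ?_, ⟨-1, by omega⟩⟩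
      rw [abs_of_nonpos (by omega), abs_of_nonpos (by omega)]; omega

/-- Odd residues modulo `n` from `{2 w - 1, 2 w + 1}`, where `w` is an even number prime
to `n` and `h / w` is odd. -/
theorem rep_pow {h n k w w₂ h' : ℤ} (hw : w = 2 * w₂) (hw2 : 1 ≤ w₂) (hcop : IsCoprime n (2 * w))
    (hh : h = w * h') (hh' : h' % 2 = 1) (hh1 : 1 ≤ h') (hn : n % 2 = 1)
    (hn5 : w * n ≤ (2 * w + 1) * h) (hk : k % 2 = 1) (hk1 : 1 ≤ k) (hkn : k ≤ n) :
    ∃ x y : ℤ, |x| + |y| = h ∧ n ∣ x * (2 * w - 1) + y * (2 * w + 1) - k := by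
  have hnpos : 0 < n := by omega
  have hwpos : 0 < w := by omega
  have hhpos : 0 < h := by rw [hh]; positivity
  have hh2 : h = 2 * (w₂ * h') := by rw [hh, hw]; ring
  have key : k + (w - 1) * n ≤ (2 * w + 1) * h := by
    have e : (w - 1) * n = w * n - n := by ring
    rw [e]; linarith
  rcases Int.lt_or_le k (h * (2 * w - 1) - (w - 1) * n) with h1 | h1
  · -- choose `c`
    obtain ⟨c, hc1, hc2, q, hq⟩ : ∃ c : ℤ, -(w - 1) ≤ c ∧ c ≤ w - 1 ∧
        ∃ q : ℤ, k - c * n = w * (1 + 2 * q) := by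
      obtain ⟨a, b, hab⟩ := hcop
      set c₀ := a * (k - w) with hc₀
      set c := (c₀ + w - 1) % (2 * w) - (w - 1) with hc
      have h2w : 0 < 2 * w := by omega
      have e1 := Int.emod_nonneg (c₀ + w - 1) h2w.ne'
      have e2 := Int.emod_lt_of_pos (c₀ + w - 1) h2w
      have e3 := Int.mul_ediv_add_emod (c₀ + w - 1) (2 * w)
      set z := (c₀ + w - 1) / (2 * w) with hz
      have e4 : c = c₀ - 2 * w * z := by omega
      have e5 : k - c * n = w * (1 + 2 * (b * (k - w) + z * n)) := by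
        rw [e4, hc₀]
        linear_combination (-(k - w)) * hab
      have hcodd : c ≠ w := by
        intro hcw
        have h3 : k - w * n = w * (1 + 2 * (b * (k - w) + z * n)) := by rw [← e5, hcw]
        have h4 : k = 2 * (w₂ * (n + (1 + 2 * (b * (k - w) + z * n)))) := by
          have : k = w * n + w * (1 + 2 * (b * (k - w) + z * n)) := by linarith
          calc k = w * n + w * (1 + 2 * (b * (k - w) + z * n)) := this
            _ = 2 * (w₂ * (n + (1 + 2 * (b * (k - w) + z * n)))) := by rw [hw]; ring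
        omega
      exact ⟨c, by omega, by omega, _, e5⟩
    have hcn1 : c * n ≤ (w - 1) * n := mul_le_mul_of_nonneg_right hc2 hnpos.le
    have hcn2 : -(w - 1) * n ≤ c * n := mul_le_mul_of_nonneg_right hc1 hnpos.le
    have h4 : (1 + 2 * q - h') % 4 = 0 ∨ (1 + 2 * q + h') % 4 = 0 := by omega
    rcases h4 with h4 | h4
    · obtain ⟨t, ht⟩ : ∃ t, 1 + 2 * q = h' + 4 * t := ⟨(1 + 2 * q - h') / 4, by omega⟩
      have hy : 4 * w * (w₂ * h' + t) = k - c * n + h * (2 * w - 1) := by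
        rw [hq, ht, hh]
        have : w * w₂ * 2 = w * w := by rw [hw]; ring
        linear_combination 2 * h' * this
      have hy0 : 0 ≤ w₂ * h' + t := by
        by_contra hcon
        have : 4 * w * (w₂ * h' + t) ≤ 4 * w * (-1) :=
          mul_le_mul_of_nonneg_left (by omega) (by omega)
        linarith
      have hyh : w₂ * h' + t ≤ h := by
        by_contra hcon
        have : 4 * w * (h + 1) ≤ 4 * w * (w₂ * h' + t) :=
          mul_le_mul_of_nonneg_left (by omega) (by omega)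
        linarith
      refine ⟨(w₂ * h' + t) - h, w₂ * h' + t, ?_, ⟨-c, ?_⟩⟩
      · rw [abs_of_nonpos (by omega), abs_of_nonneg (by omega)]; ring
      · linear_combination hy
    · obtain ⟨t, ht⟩ : ∃ t, 1 + 2 * q = 4 * t - h' := ⟨(1 + 2 * q + h') / 4, by omega⟩
      have hy : 4 * w * (w₂ * h' - t) = h * (2 * w - 1) - (k - c * n) := by
        rw [hq, ht, hh]
        have : w * w₂ * 2 = w * w := by rw [hw]; ring
        linear_combination 2 * h' * this
      have hy0 : 0 ≤ w₂ * h' - t := by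
        by_contra hcon
        have : 4 * w * (w₂ * h' - t) ≤ 4 * w * (-1) :=
          mul_le_mul_of_nonneg_left (by omega) (by omega)
        linarith
      have hyh : w₂ * h' - t ≤ h := by
        by_contra hcon
        have : 4 * w * (h + 1) ≤ 4 * w * (w₂ * h' - t) :=
          mul_le_mul_of_nonneg_left (by omega) (by omega)
        linarith
      refine ⟨h - (w₂ * h' - t), -(w₂ * h' - t), ?_, ⟨-c, ?_⟩⟩
      · rw [abs_of_nonneg (by omega), abs_of_nonpos (by omega)]; ring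
      · linear_combination (-1 : ℤ) * hy
  · -- both coordinates nonnegative
    obtain ⟨y, hy⟩ : ∃ y, k + (w - 1) * n - h * (2 * w - 1) = 2 * y := by
      obtain ⟨k', hk'⟩ : ∃ k', k = 2 * k' + 1 := ⟨k / 2, by omega⟩
      obtain ⟨n', hn'⟩ : ∃ n', n = 2 * n' + 1 := ⟨n / 2, by omega⟩
      refine ⟨k' + w₂ * n - n' - (w₂ * h') * (2 * w - 1), ?_⟩
      rw [hh2, hw, hk', hn']; ring
    have hy0 : 0 ≤ y := by omega
    have hyh : y ≤ h := by linarith
    refine ⟨h - y, y, ?_, ⟨w - 1, ?_⟩⟩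
    · rw [abs_of_nonneg (by omega), abs_of_nonneg (by omega)]; ring
    · linear_combination (-1 : ℤ) * hy

end Pool.Agent.Lib.MP_3a897b_co
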