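import Pool.Agent.Lib.MP_3a897b_co.Window

/-!
# The upper bounds for odd `n`
-/

namespace Pool.Agent.Lib.MP_3a897b_co

variable {n : ℤ} {h : ℕ} {r N σ : ℤ}

theorem dvd_of_two_mul {n x : ℤ} (hodd : n % 2 = 1) (h : n ∣ 2 * x) : n ∣ x := by
  have h1 : IsCoprime n 2 := by
    refine ⟨1, -(n / 2), ?_⟩
    omega
  exact h1.dvd_of_dvd_mul_left h

/-- Two hits give a small step. -/
theorem step_of_hits {i j : ℕ} (hi : i ∈ hits n h σ 1 N) (hj : j ∈ hits n h σ 1 N)
    (hij : i < j) : ∃ δ : ℤ, |δ| ≤ N - 1 ∧ n ∣ ((j - i : ℕ) : ℤ) * σ - δ := by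
  rw [hits, Finset.mem_filter, Finset.mem_range] at hi hj
  refine ⟨(j * σ) % n - (i * σ) % n, ?_, ?_⟩
  · rw [abs_le]; constructor <;> omega
  · have h1 : n ∣ (j * σ) - (j * σ) % n := Int.dvd_self_sub_emod
    have h2 : n ∣ (i * σ) - (i * σ) % n := Int.dvd_self_sub_emod
    have h3 := dvd_sub h1 h2
    have h4 : ((j - i : ℕ) : ℤ) * σ - ((j * σ) % n - (i * σ) % n) =
        ((j * σ) - (j * σ) % n) - ((i * σ) - (i * σ) % n) := by
      rw [Nat.cast_sub hij.le]; ring
    rw [h4]; exact h3

theorem Data.npos (D : Data n h r N σ) : 0 < n := by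
  have h1 := D.hn; have h2 := D.hN; have h3 := D.hr0; omega

/-- The case of step one, positive direction. -/
theorem Data.pos_window (D : Data n h r N σ) {p : ℕ} {δ b : ℤ} (hδ : 0 < δ) (hb : 1 ≤ b)
    (hbN : b + δ ≤ N + 1) (hp : n ∣ p * σ - δ) :
    n * (hits n h σ b δ).card ≤ h * δ + p * r := by
  have hn := D.hn
  have hr := D.hr
  have hr0 := D.hr0
  have h1 := window_pos (h := h) (p := p) D.npos D.hr0 (by omega : r ≤ n) D.hσ hp hδ.le hb
    (by omega)
  have h2 : 0 ≤ n * ((exc n p σ (b + δ) r).card : ℤ) :=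
    mul_nonneg D.npos.le (Int.natCast_nonneg _)
  linarith

theorem Data.neg_window (D : Data n h r N σ) {p : ℕ} {d b : ℤ} (hd : 0 < d) (hb : 1 ≤ b)
    (hbN : b + d ≤ N + 1) (hp : n ∣ p * σ + d) :
    n * (hits n h σ b d).card = h * d - p * r + n * (exc n p σ b r).card := by
  have hn := D.hn
  have hr := D.hr
  have hr0 := D.hr0
  exact window_neg (h := h) (p := p) D.npos D.hr0 (by omega : r ≤ n) D.hσ hp hd.le (by omega)
    (by omega)

theorem Data.exc_le (D : Data n h r N σ) {p : ℕ} {b : ℤ} (hp : 1 ≤ p) (hb : 1 ≤ b)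
    (hbN : b ≤ N) : (exc n p σ b r).card ≤ p - 1 := by
  have hn := D.hn
  have hr := D.hr
  have hr0 := D.hr0
  exact exc_card_le hp hb (by omega) (by omega)

/-- Bound for odd `h`. -/
theorem Data.bound_odd (D : Data n h r N σ) (hh : h % 2 = 1) (hbig : 2 * h + 3 ≤ n) :
    n ≤ 3 * h := by
  have hn := D.hn
  have hN := D.hN
  have hr := D.hr
  have hr0 := D.hr0
  have hpar := D.hpar
  have hnpos := D.npos
  by_cases hadj : ∃ i, i ∈ hits n h σ 1 N ∧ i + 1 ∈ hits n h σ 1 N
  · obtain ⟨i, hi, hi'⟩ := hadj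
    obtain ⟨δ, hδ, hdvd⟩ := step_of_hits hi hi' (by omega)
    have e : i + 1 - i = 1 := by omega
    rw [e] at hdvd
    rw [abs_le] at hδ
    rcases lt_trichotomy δ 0 with hneg | hzero | hpos
    · -- negative step
      exfalso
      obtain ⟨d, rfl⟩ : ∃ d, δ = -d := ⟨-δ, by ring⟩
      have hdvd' : n ∣ ((1 : ℕ) : ℤ) * σ + d := by
        have : ((1 : ℕ) : ℤ) * σ + d = ((1 : ℕ) : ℤ) * σ - (-d) := by ring
        rw [this]; exact hdvd
      have h1 := D.neg_window (b := 1) (by omega) le_rfl (by omega) hdvd'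
      have h2 := D.neg_window (b := N + 2 - 1 - d) (by omega) (by omega) (by omega) hdvd'
      have h3 := D.exc_le (p := 1) (b := 1) le_rfl le_rfl (by omega)
      have h4 := D.exc_le (p := 1) (b := N + 2 - 1 - d) le_rfl (by omega) (by omega)
      have h5 := D.window (b := 1) (d := d) le_rfl (by omega) (by omega)
      have h3' : (exc n 1 σ 1 r).card = 0 := by omega
      have h4' : (exc n 1 σ (N + 2 - 1 - d) r).card = 0 := by omega
      rw [h3'] at h1
      rw [h4'] at h2
      push_cast at h1 h2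
      have h6 : n * d ≤ n * ((hits n h σ 1 d).card + (hits n h σ (N + 2 - 1 - d) d).card) :=
        mul_le_mul_of_nonneg_left h5 hnpos.le
      nlinarith [h1, h2, h6, hr0, hbig]
    · -- zero step
      exfalso
      subst hzero
      rw [hits, Finset.mem_filter, Finset.mem_range] at hi
      have h1 : ((i : ℤ) * σ) % n = 0 := by
        apply Int.emod_eq_zero_of_dvd
        have : n ∣ σ := by simpa using hdvd
        exact Dvd.dvd.mul_left this _
      omega
    · have h1 := D.pos_window (b := 1) hpos le_rfl (by omega) hdvd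
      have h2 := D.pos_window (b := N + 2 - 1 - δ) hpos (by omega) (by omega) hdvd
      have h5 := D.window (b := 1) (d := δ) le_rfl (by omega) (by omega)
      push_cast at h1 h2
      rcases eq_or_lt_of_le (show 1 ≤ δ by omega) with hδ1 | hδ2
      · exfalso
        subst hδ1
        have h3 : ((hits n h σ 1 1).card : ℤ) < 1 := by
          by_contra hcon
          push Not at hcon
          nlinarith [h1, hcon, hnpos]
        have h4 : ((hits n h σ (N + 2 - 1 - 1) 1).card : ℤ) < 1 := by
          by_contra hcon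
          push Not at hcon
          nlinarith [h2, hcon, hnpos]
        omega
      · have h6 : n * δ ≤ n * ((hits n h σ 1 δ).card + (hits n h σ (N + 2 - 1 - δ) δ).card) :=
          mul_le_mul_of_nonneg_left h5 hnpos.le
        have h7 : n * δ ≤ (2 * h + r) * δ := by nlinarith [h1, h2, h6, hr0]
        have h8 : n ≤ 2 * h + r := le_of_mul_le_mul_right h7 (by omega)
        omega
  · push Not at hadj
    have hsep : ∀ i ∈ hits n h σ 1 N, ∀ j ∈ hits n h σ 1 N, i < j → i + 2 ≤ j := by
      intro i hi j hj hij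
      have h1 := hadj i hi
      rcases Nat.lt_or_ge (i + 1) j with h2 | h2
      · omega
      · have : j = i + 1 := by omega
        subst this
        exact absurd hj h1
    have h1 := hits_sparse (p := 2) (by omega) (by omega) hsep
    have h2 := D.half
    omega

end Pool.Agent.Lib.MP_3a897b_co
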