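import Mathlib

/-!
# A group with an exact spanning set of two elements is cyclic
-/

namespace Pool.Agent.Lib.MP_3a897b_co

universe u
variable {G : Type u} [AddCommGroup G] [Finite G]

/-- Multiplication by `m`. -/
abbrev mulBy (G : Type u) [AddCommGroup G] (m : ℕ) : G →+ G := nsmulAddMonoidHom m

omit [Finite G] in
theorem mem_ker_mulBy {m : ℕ} {g : G} : g ∈ (mulBy G m).ker ↔ m • g = 0 := by
  rw [AddMonoidHom.mem_ker]; rfl

/-- If the prime torsion is small, all torsion is small. -/
theorem card_ker_le (hp : ∀ p : ℕ, p.Prime → Nat.card (mulBy G p).ker ≤ p) :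
    ∀ m : ℕ, 0 < m → Nat.card (mulBy G m).ker ≤ m := by
  intro m
  induction m using induction_on_primes with
  | zero => intro h; omega
  | one =>
    intro _
    have : (mulBy G 1).ker = ⊥ := by
      rw [eq_bot_iff]
      intro g hg
      rw [mem_ker_mulBy, one_nsmul] at hg
      rw [hg]; exact zero_mem _
    rw [this]
    simp
  | prime_mul p a hpp ih =>
    intro hpa
    have ha : 0 < a := Nat.pos_of_mul_pos_left hpa
    have iha := ih ha
    -- multiplication by `p` from the kernel of `p a` to the kernel of `a`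
    let ψ : (mulBy G (p * a)).ker →+ (mulBy G a).ker :=
      { toFun := fun g => ⟨p • (g : G), by
          have hg := g.2
          rw [mem_ker_mulBy] at hg ⊢
          rw [← mul_nsmul, ← hg]⟩
        map_zero' := by simp
        map_add' := fun x y => by
          apply Subtype.ext
          simp }
    have h1 := AddSubgroup.card_mul_index ψ.ker
    rw [AddSubgroup.index_ker] at h1
    have h2 : Nat.card ψ.range ≤ a := (Nat.card_le_card_of_injective (fun z : ψ.range => (z : (mulBy G a).ker)) Subtype.val_injective).trans iha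
    have h3 : Nat.card ψ.ker ≤ p := by
      refine le_trans ?_ (hp p hpp)
      refine Nat.card_le_card_of_injective (fun z : ψ.ker => (⟨((z : (mulBy G (p * a)).ker) : G), ?_⟩ : (mulBy G p).ker)) ?_
      · have hz := z.2
        rw [AddMonoidHom.mem_ker] at hz
        rw [mem_ker_mulBy]
        exact congrArg Subtype.val hz
      · intro z w hzw
        have h5 : ((z : (mulBy G (p * a)).ker) : G) = ((w : (mulBy G (p * a)).ker) : G) :=
          congrArg (fun q : (mulBy G p).ker => (q : G)) hzw
        exact Subtype.ext (Subtype.ext h5)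
    rw [← h1]
    exact Nat.mul_le_mul h3 h2

/-- The prime torsion is small if `G` is generated by two elements with a relation that is not
divisible by `p`. -/
theorem card_ker_prime_le {p : ℕ} (hp : p.Prime) {a b : G}
    (hgen : ∀ g : G, ∃ u v : ℤ, u • a + v • b = g) {x y : ℤ} (hxy : x • a + y • b = 0)
    (hx : ¬ (p : ℤ) ∣ x) : Nat.card (mulBy G p).ker ≤ p := by
  have h1 := AddSubgroup.card_mul_index (mulBy G p).ker
  rw [AddSubgroup.index_ker] at h1
  have hcop : IsCoprime x (p : ℤ) := by
    rw [Int.isCoprime_iff_gcd_eq_one, Int.gcd_comm]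
    have := (Nat.Prime.coprime_iff_not_dvd hp (n := x.natAbs)).mpr (fun h => hx (by
      rw [← Int.natAbs_dvd_natAbs]; simpa using h))
    simpa [Int.gcd, Nat.Coprime] using this
  obtain ⟨w, t, hwt⟩ := hcop
  have hsurj : Function.Surjective
      (fun q : Fin p × (mulBy G p).range => ((q.1 : ℕ) : ℤ) • b + (q.2 : G)) := by
    intro g
    obtain ⟨u, v, huv⟩ := hgen g
    have ha : a = (-(w * y)) • b + (p : ℤ) • (t • a) := by
      have e1 : a = (w * x + t * p) • a := by rw [hwt, one_zsmul]
      have e2 : (w * x) • a = (-(w * y)) • b := by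
        have h3 : w • (x • a + y • b) = 0 := by rw [hxy, smul_zero]
        rw [smul_add, ← mul_smul, ← mul_smul] at h3
        rw [neg_smul]
        exact eq_neg_of_add_eq_zero_left h3
      calc a = (w * x + t * p) • a := e1
        _ = (w * x) • a + (t * p) • a := add_smul _ _ _
        _ = (-(w * y)) • b + (p : ℤ) • (t • a) := by rw [e2, ← mul_smul, mul_comm t]
    have hpz : (p : ℤ) ≠ 0 := by exact_mod_cast hp.ne_zero
    have hppos : (0 : ℤ) < p := by exact_mod_cast hp.pos
    have hj0 := Int.emod_nonneg (v - u * (w * y)) hpz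
    have hj1 := Int.emod_lt_of_pos (v - u * (w * y)) hppos
    refine ⟨⟨⟨((v - u * (w * y)) % p).toNat, by omega⟩,
      ⟨(p : ℤ) • (((v - u * (w * y)) / p) • b + u • (t • a)), ?_⟩⟩, ?_⟩
    · refine ⟨((v - u * (w * y)) / p) • b + u • (t • a), ?_⟩
      show p • (((v - u * (w * y)) / p) • b + u • (t • a)) =
        (p : ℤ) • (((v - u * (w * y)) / p) • b + u • (t • a))
      rw [natCast_zsmul]
    · show ((((v - u * (w * y)) % p).toNat : ℕ) : ℤ) • b +
        (p : ℤ) • (((v - u * (w * y)) / p) • b + u • (t • a)) = g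
      rw [Int.toNat_of_nonneg hj0, smul_add, ← mul_smul, ← add_assoc, ← add_smul,
        Int.emod_add_mul_ediv]
      have e3 : g = u • ((-(w * y)) • b + (p : ℤ) • (t • a)) + v • b := by
        rw [← ha, huv]
      rw [e3]
      module
  have h2 := Nat.card_le_card_of_surjective _ hsurj
  rw [Nat.card_prod, Nat.card_eq_fintype_card (α := Fin p), Fintype.card_fin, ← h1] at h2
  have h3 : 0 < Nat.card (mulBy G p).range := Nat.card_pos
  exact Nat.le_of_mul_le_mul_right h2 h3

/-- A finite abelian group with an exact spanning set of two elements is cyclic. -/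
theorem isAddCyclic_of_span {h : ℕ} {a b : G}
    (hspan : ∀ g : G, ∃ x y : ℤ, |x| + |y| = h ∧ x • a + y • b = g) : IsAddCyclic G := by
  classical
  have hgen : ∀ g : G, ∃ u v : ℤ, u • a + v • b = g := fun g => by
    obtain ⟨x, y, _, h⟩ := hspan g; exact ⟨x, y, h⟩
  have hgen' : ∀ g : G, ∃ u v : ℤ, u • b + v • a = g := fun g => by
    obtain ⟨x, y, h⟩ := hgen g; exact ⟨y, x, by rw [add_comm]; exact h⟩
  have hprime : ∀ p : ℕ, p.Prime → Nat.card (mulBy G p).ker ≤ p := by
    intro p hp
    by_contra hcon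
    have key : ∀ x y : ℤ, x • a + y • b = 0 → (p : ℤ) ∣ x ∧ (p : ℤ) ∣ y := by
      intro x y hxy
      constructor
      · by_contra hx
        exact hcon (card_ker_prime_le hp hgen hxy hx)
      · by_contra hy
        exact hcon (card_ker_prime_le hp hgen' (by rw [add_comm]; exact hxy) hy)
    obtain ⟨x₀, y₀, hh₀, h₀⟩ := hspan 0
    obtain ⟨x₁, y₁, hh₁, h₁⟩ := hspan a
    obtain ⟨hx₀, hy₀⟩ := key x₀ y₀ h₀
    have h₂ : (x₁ - 1) • a + y₁ • b = 0 := by
      rw [sub_smul, one_smul]
      have : x₁ • a - a + y₁ • b = (x₁ • a + y₁ • b) - a := by abel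
      rw [this, h₁, sub_self]
    obtain ⟨hx₁, hy₁⟩ := key _ _ h₂
    have h3 : (p : ℤ) ∣ h := by
      rw [← hh₀]
      exact dvd_add ((dvd_abs _ _).mpr hx₀) ((dvd_abs _ _).mpr hy₀)
    have h4 : (p : ℤ) ∣ |x₁| := by
      have e : |x₁| = h - |y₁| := by omega
      rw [e]
      exact dvd_sub h3 ((dvd_abs _ _).mpr hy₁)
    have h5 : (p : ℤ) ∣ 1 := by
      have h6 := dvd_sub ((dvd_abs _ _).mp h4) hx₁
      have e : x₁ - (x₁ - 1) = 1 := by ring
      rwa [e] at h6
    have h7 := Int.le_of_dvd one_pos h5
    have := hp.two_le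
    omega
  have hall := card_ker_le hprime
  have : Fintype G := Fintype.ofFinite G
  apply isAddCyclic_of_card_nsmul_eq_zero_le
  intro m hm
  have h1 := hall m hm
  rw [Nat.card_eq_fintype_card, Fintype.card_subtype] at h1
  refine le_trans (le_of_eq ?_) h1
  congr 1
  ext g
  rw [Finset.mem_filter, Finset.mem_filter, mem_ker_mulBy]

end Pool.Agent.Lib.MP_3a897b_co
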