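import Mathlib

/-!
# Exact spanning sets for signed sumsets
-/

namespace Pool.Agent.Lib.MP_3a897b_co

universe u

/-- The `h`-fold signed sumset of a finite subset `A` of an abelian group: all the sums
`∑ a ∈ A, c a • a` with integer coefficients satisfying `∑ a ∈ A, |c a| = h`. -/
def signedSumset {G : Type u} [AddCommGroup G] (h : ℕ) (A : Finset G) : Set G :=
  {g | ∃ c : G → ℤ, ∑ a ∈ A, |c a| = h ∧ ∑ a ∈ A, c a • a = g}

/-- `φ±(G, h)`: the smallest size of a subset `A` of `G` whose `h`-fold signed sumset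
is `G`. -/
noncomputable def phiPM (G : Type u) [AddCommGroup G] (h : ℕ) : ℕ :=
  sInf {m | ∃ A : Finset G, A.card = m ∧ signedSumset h A = Set.univ}

end Pool.Agent.Lib.MP_3a897b_co
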