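import Pool.Agent.Lib.MP_3a897b_co.Core

/-!
# The upper bound `2 n ≤ 5 h` for even `h ≥ 22` and odd `n`
-/

namespace Pool.Agent.Lib.MP_3a897b_co

variable {n : ℤ} {r N σ : ℤ} {η : ℕ} {ρ : ℤ}

/-- positive step: `n c = η δ + p ρ` and `δ ≤ 4 c`. -/
theorem pos_step (D : Data n (2 * η) (2 * ρ) N σ) (hodd : n % 2 = 1) {p : ℕ} {δ : ℤ}
    (hδ : 0 < δ) (hδN : δ ≤ N) (hp : n ∣ p * σ - δ) :
    ∃ c : ℤ, c * n = η * δ + p * ρ ∧ δ ≤ 4 * c := by
  have hnpos := D.npos
  have h0 : n ∣ η * σ + ρ := by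
    apply dvd_of_two_mul hodd
    have := D.hσ
    push_cast at this
    have e : 2 * ((η : ℤ) * σ + ρ) = 2 * (η : ℤ) * σ + 2 * ρ := by ring
    rw [e]; exact this
  obtain ⟨a, ha⟩ := h0
  obtain ⟨b, hb⟩ := hp
  refine ⟨p * a - η * b, ?_, ?_⟩
  · linear_combination (-(p : ℤ)) * ha + (η : ℤ) * hb
  · have hc : (p * a - η * b) * n = η * δ + p * ρ := by
      linear_combination (-(p : ℤ)) * ha + (η : ℤ) * hb
    set c := (p : ℤ) * a - η * b with hcdef
    have hdvd : n ∣ p * σ - δ := ⟨b, hb⟩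
    have h1 := D.pos_window (b := 1) hδ le_rfl (by omega) hdvd
    have h2 := D.pos_window (b := N + 2 - 1 - δ) hδ (by omega) (by omega) hdvd
    have h5 := D.window (b := 1) (d := δ) le_rfl (by omega) (by omega)
    push_cast at h1 h2
    have h3 : ((hits n (2 * η) σ 1 δ).card : ℤ) ≤ 2 * c := by
      apply le_of_mul_le_mul_left _ hnpos
      linarith
    have h4 : ((hits n (2 * η) σ (N + 2 - 1 - δ) δ).card : ℤ) ≤ 2 * c := by
      apply le_of_mul_le_mul_left _ hnpos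
      linarith
    linarith

/-- negative step: `n c = η d - p ρ`, and the exact number of hits in a window. -/
theorem neg_step (D : Data n (2 * η) (2 * ρ) N σ) (hodd : n % 2 = 1) {p : ℕ} {d : ℤ}
    (hd : 0 < d) (hp : n ∣ p * σ + d) :
    ∃ c : ℤ, c * n = η * d - p * ρ ∧ ∀ b : ℤ, 1 ≤ b → b + d ≤ N + 1 →
      ((hits n (2 * η) σ b d).card : ℤ) = 2 * c + (exc n p σ b (2 * ρ)).card := by
  have hnpos := D.npos
  have h0 : n ∣ η * σ + ρ := by
    apply dvd_of_two_mul hodd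
    have := D.hσ
    push_cast at this
    have e : 2 * ((η : ℤ) * σ + ρ) = 2 * (η : ℤ) * σ + 2 * ρ := by ring
    rw [e]; exact this
  obtain ⟨a, ha⟩ := h0
  obtain ⟨b', hb'⟩ := hp
  have hc : (η * b' - p * a) * n = η * d - p * ρ := by
    linear_combination (-(η : ℤ)) * hb' + (p : ℤ) * ha
  refine ⟨η * b' - p * a, hc, ?_⟩
  set c := (η : ℤ) * b' - p * a with hcdef
  intro b hb hbN
  have hdvd : n ∣ p * σ + d := ⟨b', hb'⟩
  have h1 := D.neg_window (b := b) hd hb hbN hdvd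
  push_cast at h1
  have h2 : n * ((hits n (2 * η) σ b d).card : ℤ) =
      n * (2 * c + (exc n p σ b (2 * ρ)).card) := by
    rw [h1]
    linear_combination (-2 : ℤ) * hc
  exact mul_left_cancel₀ hnpos.ne' h2

/-- Consequence of `neg_step`: a bound for `d`. -/
theorem neg_step_bound (D : Data n (2 * η) (2 * ρ) N σ) {p : ℕ} {d c : ℤ} (hp : 1 ≤ p)
    (hd : 0 < d) (hdN : d ≤ N)
    (hhits : ∀ b : ℤ, 1 ≤ b → b + d ≤ N + 1 →
      ((hits n (2 * η) σ b d).card : ℤ) = 2 * c + (exc n p σ b (2 * ρ)).card) :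
    d ≤ 4 * c + 2 * (p - 1) := by
  have h1 := hhits 1 le_rfl (by omega)
  have h2 := hhits (N + 2 - 1 - d) (by omega) (by omega)
  have h3 := D.exc_le (p := p) (b := 1) hp le_rfl (by omega)
  have h4 := D.exc_le (p := p) (b := N + 2 - 1 - d) hp (by omega) (by omega)
  have h5 := D.window (b := 1) (d := d) le_rfl (by omega) (by omega)
  omega

/-- a multiple of `σ` that vanishes modulo `n` has many steps. -/
theorem zero_step (D : Data n (2 * η) (2 * ρ) N σ) {p : ℕ} (hp : 1 ≤ p)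
    (hdvd : n ∣ p * σ) : N ≤ 2 * p := by
  have hN := D.hN
  have hsub : Finset.Icc 1 N ⊆ (Finset.range p).image (fun j : ℕ => ((j : ℤ) * σ) % n) ∪
      (Finset.range p).image (fun j : ℕ => N + 1 - ((j : ℤ) * σ) % n) := by
    have key : ∀ i : ℕ, ∃ j, j < p ∧ ((i : ℤ) * σ) % n = ((j : ℤ) * σ) % n := by
      intro i
      refine ⟨i % p, Nat.mod_lt _ (by omega), ?_⟩
      apply emod_congr
      have h1 : (i : ℤ) * σ - ((i % p : ℕ) : ℤ) * σ = ((i / p : ℕ) : ℤ) * (p * σ) := by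
        have h2 : (i : ℤ) = ((p * (i / p) + i % p : ℕ) : ℤ) := by
          rw [Nat.div_add_mod]
        rw [h2]
        push_cast
        have h3 : ((i : ℤ) % (p : ℤ) : ℤ) = ((i % p : ℕ) : ℤ) := by push_cast; rfl
        have h4 : ((p : ℤ) * ((i : ℤ) / p) + (i : ℤ) % p) = i := Int.mul_ediv_add_emod _ _
        rw [h4]
        linear_combination (-σ) * (Int.mul_ediv_add_emod (i : ℤ) p)
      rw [h1]
      exact Dvd.dvd.mul_left hdvd _
    intro κ hκ
    rw [Finset.mem_Icc] at hκ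
    rw [Finset.mem_union, Finset.mem_image, Finset.mem_image]
    rcases D.cov κ (by omega) (by omega) with ⟨i, hi, hiκ⟩ | ⟨i, hi, hiκ⟩
    · obtain ⟨j, hj, hji⟩ := key i
      exact Or.inl ⟨j, Finset.mem_range.mpr hj, by omega⟩
    · obtain ⟨j, hj, hji⟩ := key i
      exact Or.inr ⟨j, Finset.mem_range.mpr hj, by omega⟩
  have h1 := Finset.card_le_card hsub
  have h2 := Finset.card_union_le
    ((Finset.range p).image (fun j : ℕ => ((j : ℤ) * σ) % n))
    ((Finset.range p).image (fun j : ℕ => N + 1 - ((j : ℤ) * σ) % n))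
  have h3 := Finset.card_image_le (s := Finset.range p)
    (f := fun j : ℕ => ((j : ℤ) * σ) % n)
  have h4 := Finset.card_image_le (s := Finset.range p)
    (f := fun j : ℕ => N + 1 - ((j : ℤ) * σ) % n)
  rw [Finset.card_range] at h3 h4
  rw [Int.card_Icc] at h1
  omega

end Pool.Agent.Lib.MP_3a897b_co
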