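import Pool.Agent.Lib.MP_3a897b_co.EvenH

/-!
# The upper bound `2 n ≤ 5 h` for even `h ≥ 22` and odd `n`: the case analysis
-/

namespace Pool.Agent.Lib.MP_3a897b_co

variable {n : ℤ} {r N σ : ℤ} {η : ℕ} {ρ : ℤ}

theorem mem_exc {n : ℤ} {p : ℕ} {σ b r : ℤ} {i : ℕ} :
    i ∈ exc n p σ b r ↔ i < p ∧ (i * σ - b) % n < r := by
  rw [exc, Finset.mem_filter, Finset.mem_range]

/-- If the exceptional set for `p = 3` has two elements, these are `1` and `2`. -/
theorem exc_three {n : ℤ} {σ b r : ℤ} (hb : 1 ≤ b) (hbn : b < n) (hbr : b + r ≤ n)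
    (h : 2 ≤ (exc n 3 σ b r).card) : (1 * σ - b) % n < r ∧ (2 * σ - b) % n < r := by
  have h0 : 0 ∉ exc n 3 σ b r := by
    intro h0
    rw [mem_exc] at h0
    have h1 : (((0 : ℕ) : ℤ) * σ - b) % n = n - b := by
      apply emod_unique
      · omega
      · omega
      · exact ⟨-1, by push_cast; ring⟩
    rw [h1] at h0
    omega
  have hsub : exc n 3 σ b r ⊆ {1, 2} := by
    intro i hi
    have h1 := (mem_exc.mp hi).1
    have h2 : i ≠ 0 := by rintro rfl; exact h0 hi
    simp only [Finset.mem_insert, Finset.mem_singleton]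
    omega
  have heq : exc n 3 σ b r = {1, 2} := Finset.eq_of_subset_of_card_le hsub (by simpa using h)
  have h1 : 1 ∈ exc n 3 σ b r := by rw [heq]; simp
  have h2 : 2 ∈ exc n 3 σ b r := by rw [heq]; simp
  have h1' := (mem_exc.mp h1).2
  have h2' := (mem_exc.mp h2).2
  push_cast at h1' h2'
  exact ⟨h1', h2'⟩

/-- If the exceptional set for `p = 2` is not empty, it contains `1`. -/
theorem exc_two {n : ℤ} {σ b r : ℤ} (hb : 1 ≤ b) (hbn : b < n) (hbr : b + r ≤ n)
    (h : 1 ≤ (exc n 2 σ b r).card) : (1 * σ - b) % n < r := by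
  obtain ⟨i, hi⟩ := Finset.card_pos.mp (Nat.lt_of_lt_of_le Nat.zero_lt_one h)
  rw [mem_exc] at hi
  have h0 : i ≠ 0 := by
    rintro rfl
    have h1 : (((0 : ℕ) : ℤ) * σ - b) % n = n - b := by
      apply emod_unique
      · omega
      · omega
      · exact ⟨-1, by push_cast; ring⟩
    rw [h1] at hi
    omega
  have h1 : i = 1 := by omega
  subst h1
  have h2 := hi.2
  push_cast at h2
  exact h2

theorem not_dvd_of_lt {n x : ℤ} (h0 : 0 < x) (h1 : x < n) : ¬ n ∣ x := fun h =>
  absurd (Int.le_of_dvd h0 h) (by omega)

theorem even_bound (D : Data n (2 * η) (2 * ρ) N σ) (hodd : n % 2 = 1) (hη : 11 ≤ η) :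
    n ≤ 5 * η := by
  by_contra hcon
  push Not at hcon
  have hnpos := D.npos
  have hn := D.hn
  have hr := D.hr
  have hr0 := D.hr0
  push_cast at hn hr
  have hhalf := D.half
  have hNN : 3 * (η : ℤ) - 2 * ρ ≤ N := by omega
  have hNη : (η : ℤ) ≤ N := by omega
  -- a step exists
  have hex : ∃ p : ℕ, 1 ≤ p ∧ ∃ δ : ℤ, |δ| ≤ N - 1 ∧ n ∣ (p : ℤ) * σ - δ := by
    have hcard : 1 < (hits n (2 * η) σ 1 N).card := by omega
    rw [Finset.one_lt_card] at hcard
    obtain ⟨i, hi, j, hj, hij⟩ := hcard
    rcases Nat.lt_or_gt_of_ne hij with h | h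
    · exact ⟨j - i, by omega, step_of_hits hi hj h⟩
    · exact ⟨i - j, by omega, step_of_hits hj hi h⟩
  classical
  obtain ⟨hp1, δ, hδ, hdvd⟩ := Nat.find_spec hex
  have hmin : ∀ m : ℕ, 1 ≤ m → (∃ δ : ℤ, |δ| ≤ N - 1 ∧ n ∣ (m : ℤ) * σ - δ) →
      Nat.find hex ≤ m := fun m hm hm' => Nat.find_min' hex ⟨hm, hm'⟩
  have hsep : ∀ i ∈ hits n (2 * η) σ 1 N, ∀ j ∈ hits n (2 * η) σ 1 N, i < j →
      i + Nat.find hex ≤ j := by
    intro i hi j hj hij
    have := hmin (j - i) (by omega) (step_of_hits hi hj hij)
    omega
  generalize Nat.find hex = p at hp1 hdvd hmin hsep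
  -- `p ≤ 4`
  have hp4 : p ≤ 4 := by
    by_contra hp5
    have hsep5 : ∀ i ∈ hits n (2 * η) σ 1 N, ∀ j ∈ hits n (2 * η) σ 1 N, i < j →
        i + 5 ≤ j := by
      intro i hi j hj hij
      have := hsep i hi j hj hij
      omega
    have h1 := hits_sparse (p := 5) (by omega) (by omega) hsep5
    omega
  have hsparse := hits_sparse (p := p) hp1 (by omega) hsep
  rw [abs_le] at hδ
  -- no step of length one
  have hno1 : 2 ≤ p → ∀ e : ℤ, |e| ≤ N - 1 → ¬ n ∣ σ - e := by
    intro hp2 e he hdv
    have h1 := hmin 1 le_rfl ⟨e, he, by simpa using hdv⟩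
    omega
  -- the step is not zero
  have hδ0 : δ ≠ 0 := by
    rintro rfl
    have := zero_step D hp1 (by simpa using hdvd)
    omega
  have hησ : n ∣ (η : ℤ) * σ + ρ := by
    apply dvd_of_two_mul hodd
    have := D.hσ
    push_cast at this
    have e : 2 * ((η : ℤ) * σ + ρ) = 2 * (η : ℤ) * σ + 2 * ρ := by ring
    rw [e]; exact this
  -- the case `p = 4`
  have hp3 : p ≤ 3 := by
    by_contra hp
    have hp' : p = 4 := by omega
    subst hp'
    have hρ : ρ = η := by omega
    subst hρ
    have hcop : IsCoprime n (η : ℤ) := by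
      rcases (by omega : n = 5 * η + 1 ∨ n = 5 * η + 2) with h | h
      · exact ⟨1, -5, by rw [h]; ring⟩
      · obtain ⟨k, hk⟩ : ∃ k : ℤ, (η : ℤ) = 2 * k + 1 := ⟨η / 2, by omega⟩
        exact ⟨-k, 1 + 5 * k, by rw [h, hk]; ring⟩
    have h1 : n ∣ (η : ℤ) * (σ + 1) := by
      have e : (η : ℤ) * (σ + 1) = η * σ + η := by ring
      rw [e]; exact hησ
    have h2 : n ∣ σ + 1 := hcop.dvd_of_dvd_mul_left h1
    apply hno1 (by omega) (-1)
    · rw [abs_le]; constructor <;> omega
    · simpa using h2
  rcases lt_or_gt_of_ne hδ0 with hneg | hpos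
  · -- negative step
    obtain ⟨d, rfl⟩ : ∃ d, δ = -d := ⟨-δ, by ring⟩
    have hd : 0 < d := by omega
    have hdvd' : n ∣ (p : ℤ) * σ + d := by
      have : (p : ℤ) * σ + d = (p : ℤ) * σ - (-d) := by ring
      rw [this]; exact hdvd
    obtain ⟨c, hc, hhits⟩ := neg_step D hodd hd hdvd'
    have hbound := neg_step_bound D hp1 hd (by omega) hhits
    have hc0 : 0 ≤ c := by
      by_contra hc0
      have h1 : c * n ≤ -1 * n := mul_le_mul_of_nonneg_right (by omega) hnpos.le
      have h2 : (0 : ℤ) ≤ η * d := by positivity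
      have h3 : (p : ℤ) * ρ ≤ 4 * η := by nlinarith
      linarith
    have hm : 0 ≤ n - 4 * η := by omega
    have hηd : (η : ℤ) * d ≤ η * (4 * c + 2 * (p - 1)) :=
      mul_le_mul_of_nonneg_left hbound (Int.natCast_nonneg _)
    interval_cases p
    · -- `p = 1`
      push_cast at hc hbound hηd
      rcases Int.lt_or_le c 1 with hc' | hc'
      · omega
      · have h3 := mul_le_mul_of_nonneg_right hc' hm
        linarith
    · -- `p = 2`
      have h2 : c ≤ 1 := by
        by_contra hc'
        have h3 := mul_le_mul_of_nonneg_right (show 2 ≤ c by omega) hm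
        push_cast at hc hbound hηd
        linarith
      interval_cases c
      · -- `c = 0`
        have h3 : d ≤ 2 := by push_cast at hbound; omega
        interval_cases d
        · -- `d = 1`
          exfalso
          have hρ : (η : ℤ) = 2 * ρ := by push_cast at hc; omega
          have hN : N = 2 * η := by omega
          have key : ∀ b : ℤ, 1 ≤ b → b ≤ η + 1 → (exc n 2 σ b (2 * ρ)).card = 0 := by
            intro b hb hb'
            by_contra hne
            have h4 := exc_two hb (by omega) (by omega)
              (Nat.one_le_iff_ne_zero.mpr hne)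
            have h5 := Int.emod_nonneg (1 * σ - b) hnpos.ne'
            have h6 : n ∣ (1 * σ - b) - (1 * σ - b) % n := Int.dvd_self_sub_emod
            have h7 : n ∣ 2 * ((1 * σ - b) % n) + 2 * b + 1 := by
              have e : 2 * ((1 * σ - b) % n) + 2 * b + 1 = (((2 : ℕ) : ℤ) * σ + 1) -
                  2 * ((1 * σ - b) - (1 * σ - b) % n) := by push_cast; ring
              rw [e]
              exact dvd_sub hdvd' (Dvd.dvd.mul_left h6 2)
            exact not_dvd_of_lt (by omega) (by omega) h7
          have h4 := hhits η (by omega) (by omega)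
          have h5 := hhits (N + 2 - η - 1) (by omega) (by omega)
          have h6 := D.window (b := η) (d := 1) (by omega) (by omega) (by omega)
          rw [key η (by omega) (by omega)] at h4
          rw [key (N + 2 - η - 1) (by omega) (by omega)] at h5
          omega
        · -- `d = 2`
          apply hno1 le_rfl (-1)
          · rw [abs_le]; constructor <;> omega
          · apply dvd_of_two_mul hodd
            have e : 2 * (σ - -1) = ((2 : ℕ) : ℤ) * σ + 2 := by push_cast; ring
            rw [e]; exact hdvd'
      · -- `c = 1`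
        have h3 : d ≤ 6 := by push_cast at hbound; omega
        have h4 : d = 6 := by
          interval_cases d <;> push_cast at hc <;> omega
        subst h4
        apply hno1 le_rfl (-3)
        · rw [abs_le]; constructor <;> omega
        · apply dvd_of_two_mul hodd
          have e : 2 * (σ - -3) = ((2 : ℕ) : ℤ) * σ + 6 := by push_cast; ring
          rw [e]; exact hdvd'
    · -- `p = 3`
      have h6 : 5 * (η : ℤ) - 2 ≤ 6 * ρ := by omega
      have h2 : c ≤ 1 := by
        by_contra hc'
        have h3 := mul_le_mul_of_nonneg_right (show 2 ≤ c by omega) hm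
        push_cast at hc hbound hηd
        linarith
      interval_cases c
      · -- `c = 0`
        have h3 : d ≤ 4 := by push_cast at hbound; omega
        have h4 : d = 3 := by
          interval_cases d <;> push_cast at hc <;> omega
        subst h4
        exfalso
        have hρ : ρ = η := by push_cast at hc; omega
        have key : ∀ b : ℤ, 1 ≤ b → 2 * b ≤ N → ¬ 2 ≤ (exc n 3 σ b (2 * ρ)).card := by
          intro b hb hb' hne
          obtain ⟨h4, h5⟩ := exc_three hb (by omega) (by omega) hne
          have h6 := Int.emod_nonneg (1 * σ - b) hnpos.ne'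
          have h7 := Int.emod_nonneg (2 * σ - b) hnpos.ne'
          have h8 : n ∣ (1 * σ - b) - (1 * σ - b) % n := Int.dvd_self_sub_emod
          have h9 : n ∣ (2 * σ - b) - (2 * σ - b) % n := Int.dvd_self_sub_emod
          have h10 : n ∣ (1 * σ - b) % n + (2 * σ - b) % n + 2 * b + 3 := by
            have e : (1 * σ - b) % n + (2 * σ - b) % n + 2 * b + 3 =
                (((3 : ℕ) : ℤ) * σ + 3) - ((1 * σ - b) - (1 * σ - b) % n) -
                  ((2 * σ - b) - (2 * σ - b) % n) := by push_cast; ring
            rw [e]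
            exact dvd_sub (dvd_sub hdvd' h8) h9
          have h11 := Int.le_of_dvd (by omega) h10
          have h12 : (1 * σ - b) % n = (2 * σ - b) % n := by omega
          apply hno1 (by omega) 0
          · rw [abs_le]; constructor <;> omega
          · have e : σ - 0 = ((2 * σ - b) - (2 * σ - b) % n) -
                ((1 * σ - b) - (1 * σ - b) % n) := by rw [h12]; ring
            rw [e]
            exact dvd_sub h9 h8
        have h5 := hhits (N / 2) (by omega) (by omega)
        have h6 := hhits (N + 2 - N / 2 - 3) (by omega) (by omega)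
        have h7 := D.window (b := N / 2) (d := 3) (by omega) (by omega) (by omega)
        have h8 := key (N / 2) (by omega) (by omega)
        have h9 := key (N + 2 - N / 2 - 3) (by omega) (by omega)
        omega
      · -- `c = 1`
        have h3 : d ≤ 8 := by push_cast at hbound; omega
        have h4 : d = 8 := by
          interval_cases d <;> push_cast at hc <;> omega
        subst h4
        exfalso
        have hρ : n = 8 * η - 3 * ρ := by push_cast at hc; omega
        have key : ¬ 2 ≤ (exc n 3 σ 1 (2 * ρ)).card := by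
          intro hne
          obtain ⟨h4, h5⟩ := exc_three le_rfl (by omega) (by omega) hne
          have h6 := Int.emod_nonneg (1 * σ - 1) hnpos.ne'
          have h7 := Int.emod_nonneg (2 * σ - 1) hnpos.ne'
          have h8 : n ∣ (1 * σ - 1) - (1 * σ - 1) % n := Int.dvd_self_sub_emod
          have h9 : n ∣ (2 * σ - 1) - (2 * σ - 1) % n := Int.dvd_self_sub_emod
          have h10 : n ∣ (1 * σ - 1) % n + (2 * σ - 1) % n + 10 := by
            have e : (1 * σ - 1) % n + (2 * σ - 1) % n + 10 =
                (((3 : ℕ) : ℤ) * σ + 8) - ((1 * σ - 1) - (1 * σ - 1) % n) -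
                  ((2 * σ - 1) - (2 * σ - 1) % n) := by push_cast; ring
            rw [e]
            exact dvd_sub (dvd_sub hdvd' h8) h9
          exact not_dvd_of_lt (by omega) (by omega) h10
        have h5 := hhits 1 (by omega) (by omega)
        have h6 := hhits (N + 2 - 1 - 8) (by omega) (by omega)
        have h7 := D.window (b := 1) (d := 8) (by omega) (by omega) (by omega)
        have h8 := D.exc_le (p := 3) (b := N + 2 - 1 - 8) (by omega) (by omega) (by omega)
        omega
  · -- positive step
    obtain ⟨c, hc, hbound⟩ := pos_step D hodd hpos (by omega) hdvd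
    have hc1 : 1 ≤ c := by omega
    have hm : 0 ≤ n - 4 * η := by omega
    have hηd : (η : ℤ) * δ ≤ η * (4 * c) :=
      mul_le_mul_of_nonneg_left hbound (Int.natCast_nonneg _)
    interval_cases p
    · have h3 := mul_le_mul_of_nonneg_right hc1 hm
      push_cast at hc
      linarith
    · have h2 : c ≤ 1 := by
        by_contra hc'
        have h3 := mul_le_mul_of_nonneg_right (show 2 ≤ c by omega) hm
        push_cast at hc
        linarith
      have h3 : c = 1 := by omega
      subst h3
      have h4 : δ = 4 := by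
        have : δ ≤ 4 := by omega
        interval_cases δ <;> push_cast at hc <;> omega
      subst h4
      apply hno1 le_rfl 2
      · rw [abs_le]; constructor <;> omega
      · apply dvd_of_two_mul hodd
        have e : 2 * (σ - 2) = ((2 : ℕ) : ℤ) * σ - 4 := by push_cast; ring
        rw [e]; exact hdvd
    · have h2 : c ≤ 2 := by
        by_contra hc'
        have h3 := mul_le_mul_of_nonneg_right (show 3 ≤ c by omega) hm
        push_cast at hc
        linarith
      interval_cases c
      · have : δ ≤ 4 := by omega
        interval_cases δ <;> push_cast at hc <;> omega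
      · have : δ ≤ 8 := by omega
        interval_cases δ <;> push_cast at hc <;> omega

end Pool.Agent.Lib.MP_3a897b_co
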