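import Pool.Agent.Lib.MP_3a897b_co.Core

/-!
# No exact spanning set with two elements for even `n ≥ 2 h + 2`
-/

namespace Pool.Agent.Lib.MP_3a897b_co

variable {n : ℤ} {h : ℕ} {r N σ : ℤ}

theorem even_false (D : Data n h r N σ) (hbig : 2 * h + 2 ≤ n) (hev : n % 2 = 0)
    (hσ2 : σ % 2 = 1) : False := by
  have hn := D.hn
  have hN := D.hN
  have hr := D.hr
  have hr0 := D.hr0
  have hpar := D.hpar
  have hnpos := D.npos
  have hdσ := D.hσ
  obtain ⟨ν, hν⟩ : ∃ ν : ℤ, n = 2 * ν := ⟨n / 2, by omega⟩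
  obtain ⟨m, hm⟩ : ∃ m : ℤ, (h : ℤ) - r = 2 * m := ⟨(h - r) / 2, by omega⟩
  obtain ⟨A, hA⟩ : ∃ A : ℤ, N = 2 * A + 1 := ⟨(N - 1) / 2, by omega⟩
  have hmA : m ≤ A := by omega
  have hm0 : 0 ≤ m := by omega
  -- the middle of the window
  obtain ⟨i₀, hi₀, hi₀'⟩ : ∃ i : ℕ, i ≤ h ∧ (i * σ) % n = A + 1 := by
    rcases D.cov (A + 1) (by omega) (by omega) with ⟨i, hi, hi'⟩ | ⟨i, hi, hi'⟩
    · exact ⟨i, hi, hi'⟩
    · exact ⟨i, hi, by omega⟩
  have hdvd0 : n ∣ (i₀ : ℤ) * σ - (A + 1) := by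
    rw [← hi₀']; exact Int.dvd_self_sub_emod
  have hi₀pos : 1 ≤ i₀ := by
    rcases Nat.eq_zero_or_pos i₀ with h0 | h0
    · subst h0
      simp at hi₀'
      omega
    · exact h0
  set M : ℤ := max (i₀ : ℤ) (h - i₀) with hM
  have hM1 : (i₀ : ℤ) ≤ M := le_max_left _ _
  have hM2 : (h : ℤ) - i₀ ≤ M := le_max_right _ _
  have hM3 : M ≤ h := max_le (by omega) (by omega)
  -- all small residues are reached
  have reach : ∀ j : ℤ, |j| ≤ A → ∃ x : ℤ, |x| ≤ M ∧ n ∣ x * σ - j := by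
    intro j hj
    rw [abs_le] at hj
    rcases D.cov (A + 1 + j) (by omega) (by omega) with ⟨i, hi, hi'⟩ | ⟨i, hi, hi'⟩
    · refine ⟨i - i₀, ?_, ?_⟩
      · rw [abs_le]; constructor <;> omega
      · have h1 : n ∣ (i : ℤ) * σ - (A + 1 + j) := by
          rw [← hi']; exact Int.dvd_self_sub_emod
        have h2 := dvd_sub h1 hdvd0
        have e : ((i : ℤ) - i₀) * σ - j = (i : ℤ) * σ - (A + 1 + j) - (i₀ * σ - (A + 1)) := by
          ring
        rw [e]; exact h2
    · refine ⟨i₀ - i, ?_, ?_⟩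
      · rw [abs_le]; constructor <;> omega
      · have h1 : n ∣ (i : ℤ) * σ - (N + 1 - (A + 1 + j)) := by
          rw [← hi']; exact Int.dvd_self_sub_emod
        have h2 := dvd_sub hdvd0 h1
        have e : ((i₀ : ℤ) - i) * σ - j =
            (i₀ : ℤ) * σ - (A + 1) - (i * σ - (N + 1 - (A + 1 + j))) := by
          rw [hA]; ring
        rw [e]; exact h2
  -- `σ` is invertible modulo `n`
  have hcop : IsCoprime n σ := by
    rcases Int.lt_or_le A 1 with hA1 | hA1
    · have : A = 0 := by omega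
      subst this
      obtain ⟨c, hc⟩ := hdvd0
      exact ⟨-c, i₀, by linarith⟩
    · obtain ⟨x, _, hx⟩ := reach 1 (by rw [abs_le]; constructor <;> omega)
      obtain ⟨c, hc⟩ := hx
      exact ⟨-c, x, by linarith⟩
  have inj : ∀ x : ℤ, n ∣ x * σ → -n < x → x < n → x = 0 := by
    intro x hx h1 h2
    have h3 : n ∣ x := hcop.dvd_of_dvd_mul_right hx
    obtain ⟨c, hc⟩ := h3
    have h4 : c = 0 := by
      by_contra hc0
      rcases Int.lt_or_gt_of_ne hc0 with h5 | h5
      · have : n * c ≤ n * (-1) := mul_le_mul_of_nonneg_left (by omega) hnpos.le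
        omega
      · have : n * 1 ≤ n * c := mul_le_mul_of_nonneg_left (by omega) hnpos.le
        omega
    rw [hc, h4, mul_zero]
  -- `m` is reached exactly at `h - i₀ - ν`
  have hnσ : n ∣ ν * σ - ν := by
    obtain ⟨k, hk⟩ : ∃ k : ℤ, σ = 2 * k + 1 := ⟨σ / 2, by omega⟩
    exact ⟨k, by rw [hν, hk]; ring⟩
  obtain ⟨x, hxM, hx⟩ := reach m (by rw [abs_le]; constructor <;> omega)
  rw [abs_le] at hxM
  have hx0 : (h : ℤ) - i₀ - x - ν = 0 := by
    apply inj
    · have h1 : n ∣ ((h : ℤ) * σ + r) - (i₀ * σ - (A + 1)) - (x * σ - m) - (ν * σ - ν) :=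
        dvd_sub (dvd_sub (dvd_sub hdσ hdvd0) hx) hnσ
      have h2 : ((h : ℤ) - i₀ - x - ν) * σ =
          ((h : ℤ) * σ + r) - (i₀ * σ - (A + 1)) - (x * σ - m) - (ν * σ - ν) - n := by
        have : r + (A + 1) + m + ν = n := by omega
        linear_combination (-1 : ℤ) * this
      rw [h2]
      exact dvd_sub h1 (dvd_refl n)
    · omega
    · omega
  have hMeq : M = h - i₀ := by
    rcases max_choice (i₀ : ℤ) (h - i₀) with h1 | h1
    · omega
    · exact h1
  have hv' : n ∣ (ν - M) * σ + m := by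
    have e : (ν - M) * σ + m = -(x * σ - m) := by
      have : x = M - ν := by omega
      rw [this]; ring
    rw [e]; exact (dvd_neg).mpr hx
  -- a maximal reached point
  classical
  let S : Finset ℤ := (Finset.Icc (-M) M).filter (fun x => ∃ j : ℤ, |j| ≤ A ∧ n ∣ x * σ - j)
  have hS : S.Nonempty := by
    refine ⟨0, ?_⟩
    simp only [S, Finset.mem_filter, Finset.mem_Icc]
    refine ⟨⟨by omega, by omega⟩, 0, ?_, by simp⟩
    simp; omega
  obtain ⟨y, hyS, hymax⟩ := Finset.exists_max_image S id hS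
  simp only [S, Finset.mem_filter, Finset.mem_Icc] at hyS
  obtain ⟨⟨hy1, hy2⟩, j, hj, hyj⟩ := hyS
  have step : ∀ z k : ℤ, 0 < z → 2 * M + z < n → n ∣ z * σ - k → |j + k| ≤ A → False := by
    intro z k hz hzν hzk hjk
    obtain ⟨w, hw, hwk⟩ := reach (j + k) hjk
    rw [abs_le] at hw
    have h1 : y + z - w = 0 := by
      apply inj
      · have h2 : n ∣ (y * σ - j) + (z * σ - k) - (w * σ - (j + k)) :=
          dvd_sub (dvd_add hyj hzk) hwk
        have h3 : (y + z - w) * σ = (y * σ - j) + (z * σ - k) - (w * σ - (j + k)) := by ring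
        rw [h3]; exact h2
      · omega
      · omega
    have hwS : w ∈ S := by
      simp only [S, Finset.mem_filter, Finset.mem_Icc]
      exact ⟨⟨hw.1, hw.2⟩, j + k, hjk, hwk⟩
    have h4 : w ≤ y := hymax w hwS
    omega
  rw [abs_le] at hj
  rcases Int.lt_or_le j 0 with hj0 | hj0
  · exact step i₀ (A + 1) (by omega) (by omega) hdvd0 (by rw [abs_le]; constructor <;> omega)
  · refine step (ν - M) (-m) (by omega) (by omega) ?_ (by rw [abs_le]; constructor <;> omega)
    have e : (ν - M) * σ - -m = (ν - M) * σ + m := by ring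
    rw [e]; exact hv'

end Pool.Agent.Lib.MP_3a897b_co
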