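import Pool.Agent.Lib.MP_3a897b_co.Core

/-!
# Small even `h`
-/

namespace Pool.Agent.Lib.MP_3a897b_co

variable {n : ℤ} {r N σ : ℤ} {η : ℕ} {ρ : ℤ}

/-- The residue `κ` or its mirror image `N + 1 - κ` is visited. -/
def visited (h m s N κ : ℕ) : Bool :=
  (List.range (h + 1)).any (fun i => (i * s) % m == κ || (i * s) % m == N + 1 - κ)

/-- The covering condition fails. -/
def fails (h m s : ℕ) : Bool :=
  let r := (m - (h * s) % m) % m
  let N := m - h - r - 1
  decide (h < r) || decide (r % 2 = 1) ||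
    (List.range N).any (fun k => !(visited h m s N (k + 1)))

theorem fails_all : ∀ η ∈ Finset.Icc 1 10, ∀ m ∈ Finset.Icc (5 * η + 1) (8 * η - 1),
    m % 2 = 1 → ∀ s ∈ Finset.range m, fails (2 * η) m s = true := by
  decide +kernel

theorem small_bound (D : Data n (2 * η) (2 * ρ) N σ) (hodd : n % 2 = 1) (hη : η ≤ 10)
    (hη1 : 1 ≤ η) : n ≤ 5 * η := by
  by_contra hcon
  push Not at hcon
  have hnpos := D.npos
  have hn := D.hn
  have hN := D.hN
  have hr := D.hr
  have hr0 := D.hr0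
  push_cast at hn hr
  have hhalf := D.half
  have hsparse := hits_sparse (n := n) (σ := σ) (h := 2 * η) (N := N) (p := 1) le_rfl (by omega)
    (fun i _ j _ hij => by omega)
  obtain ⟨m, hm⟩ : ∃ m : ℕ, (m : ℤ) = n := ⟨n.toNat, by omega⟩
  obtain ⟨N', hN'⟩ : ∃ m : ℕ, (m : ℤ) = N := ⟨N.toNat, by omega⟩
  obtain ⟨ρ', hρ'⟩ : ∃ m : ℕ, (m : ℤ) = ρ := ⟨ρ.toNat, by omega⟩
  have hs0 := Int.emod_nonneg σ hnpos.ne'
  have hs1 := Int.emod_lt_of_pos σ hnpos
  obtain ⟨s, hs⟩ : ∃ s : ℕ, (s : ℤ) = σ % n := ⟨(σ % n).toNat, by omega⟩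
  have hval : ∀ i : ℕ, (((i * s) % m : ℕ) : ℤ) = ((i : ℤ) * σ) % n := by
    intro i
    push_cast
    rw [hm, hs]
    apply emod_congr
    have h1 : n ∣ σ - σ % n := Int.dvd_self_sub_emod
    have e : (i : ℤ) * (σ % n) - i * σ = (-(i : ℤ)) * (σ - σ % n) := by ring
    rw [e]; exact Dvd.dvd.mul_left h1 _
  have hf := fails_all η (Finset.mem_Icc.mpr ⟨hη1, hη⟩) m
    (Finset.mem_Icc.mpr ⟨by omega, by omega⟩) (by omega) s (Finset.mem_range.mpr (by omega))
  have hrr : (m - (2 * η * s) % m) % m = 2 * ρ' := by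
    have h1 := hval (2 * η)
    obtain ⟨c, hc⟩ := D.hσ
    push_cast at hc
    by_cases hρ0 : ρ' = 0
    · have h2 : (((2 * η : ℕ) : ℤ) * σ) % n = 0 := by
        apply emod_unique
        · omega
        · omega
        · exact ⟨c, by push_cast; linarith [hρ', show (ρ : ℤ) = 0 by omega]⟩
      have h3 : (2 * η * s) % m = 0 := by omega
      rw [h3, Nat.sub_zero, Nat.mod_self, hρ0]
    · have h2 : (((2 * η : ℕ) : ℤ) * σ) % n = n - 2 * ρ := by
        apply emod_unique
        · omega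
        · omega
        · exact ⟨c - 1, by push_cast; linarith [mul_sub n c 1]⟩
      have h3 : (2 * η * s) % m = m - 2 * ρ' := by omega
      rw [h3]
      have h4 : m - (m - 2 * ρ') = 2 * ρ' := by omega
      rw [h4]
      exact Nat.mod_eq_of_lt (by omega)
  have hNN : m - 2 * η - 2 * ρ' - 1 = N' := by omega
  unfold fails at hf
  simp only [hrr, hNN] at hf
  rw [Bool.or_eq_true, Bool.or_eq_true, decide_eq_true_eq, decide_eq_true_eq,
    List.any_eq_true] at hf
  rcases hf with (h1 | h1) | ⟨k, hk, hk'⟩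
  · omega
  · omega
  · rw [List.mem_range] at hk
    have h2 : visited (2 * η) m s N' (k + 1) = true := by
      unfold visited
      rw [List.any_eq_true]
      rcases D.cov (k + 1) (by omega) (by omega) with ⟨i, hi, hi'⟩ | ⟨i, hi, hi'⟩
      · refine ⟨i, List.mem_range.mpr (by omega), ?_⟩
        have h3 := hval i
        rw [Bool.or_eq_true, beq_iff_eq, beq_iff_eq]
        left
        omega
      · refine ⟨i, List.mem_range.mpr (by omega), ?_⟩
        have h3 := hval i
        rw [Bool.or_eq_true, beq_iff_eq, beq_iff_eq]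
        right
        omega
    rw [h2] at hk'
    exact absurd hk' (by simp)

end Pool.Agent.Lib.MP_3a897b_co
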