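import Pool.Agent.Lib.MP_3a897b_co.Defs
import Pool.Agent.Lib.MP_3a897b_co.Construct2
import Pool.Agent.Lib.MP_3a897b_co.Cyclic
import Pool.Agent.Lib.MP_3a897b_co.EvenN
import Pool.Agent.Lib.MP_3a897b_co.EvenMain
import Pool.Agent.Lib.MP_3a897b_co.Small

/-!
# The classification for `m = 2`
-/

namespace Pool.Agent.Lib.MP_3a897b_co

universe u

variable {G : Type u} [AddCommGroup G]

/-- The arithmetic bounds. -/
theorem Data.final {n : ℤ} {h : ℕ} {r N σ : ℤ} (D : Data n h r N σ) (hh : 1 ≤ h)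
    (hbig : 2 * h + 2 ≤ n) (hσ2 : σ % 2 = 1) :
    n % 2 = 1 ∧ ((h % 2 = 1 ∧ n ≤ 3 * h) ∨ (h % 2 = 0 ∧ 2 * n ≤ 5 * h)) := by
  have hodd : n % 2 = 1 := by
    rcases Int.emod_two_eq_zero_or_one n with h0 | h1
    · exact (even_false D hbig h0 hσ2).elim
    · exact h1
  refine ⟨hodd, ?_⟩
  rcases Nat.mod_two_eq_zero_or_one h with h0 | h1
  · right
    refine ⟨h0, ?_⟩
    obtain ⟨η, rfl⟩ : ∃ η, h = 2 * η := ⟨h / 2, by omega⟩
    have hpar := D.hpar
    obtain ⟨ρ, rfl⟩ : ∃ ρ, r = 2 * ρ := ⟨r / 2, by push_cast at hpar; omega⟩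
    rcases Nat.lt_or_ge 10 η with hη | hη
    · have := even_bound D hodd (by omega)
      push_cast; omega
    · have := small_bound D hodd hη (by omega)
      push_cast; omega
  · left
    refine ⟨h1, D.bound_odd h1 ?_⟩
    omega

theorem pair_spans_iff {h : ℕ} {a b : G} [DecidableEq G] (hab : a ≠ b) :
    signedSumset h ({a, b} : Finset G) = Set.univ ↔ Spans h a b := by
  constructor
  · intro H g
    have hg : g ∈ signedSumset h ({a, b} : Finset G) := by rw [H]; trivial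
    obtain ⟨c, hc1, hc2⟩ := hg
    rw [Finset.sum_pair hab] at hc1 hc2
    exact ⟨c a, c b, hc1, hc2⟩
  · intro H
    apply Set.eq_univ_of_forall
    intro g
    obtain ⟨x, y, h1, h2⟩ := H g
    refine ⟨fun z => if z = a then x else y, ?_, ?_⟩
    · rw [Finset.sum_pair hab]
      dsimp only
      rw [if_pos rfl, if_neg hab.symm]; exact h1
    · rw [Finset.sum_pair hab]
      dsimp only
      rw [if_pos rfl, if_neg hab.symm]; exact h2

/-- Sets with at most one element span only the trivial group. -/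
theorem card_le_one_of_span [Finite G] {h : ℕ} (hh : 1 ≤ h) {A : Finset G} (hA : A.card ≤ 1)
    (H : signedSumset h A = Set.univ) : Nat.card G ≤ 1 := by
  classical
  rcases Nat.le_one_iff_eq_zero_or_eq_one.mp hA with h0 | h1
  · exfalso
    rw [Finset.card_eq_zero] at h0
    subst h0
    have h2 : (0 : G) ∈ signedSumset h (∅ : Finset G) := by rw [H]; trivial
    obtain ⟨c, hc, -⟩ := h2
    rw [Finset.sum_empty] at hc
    omega
  · obtain ⟨a, rfl⟩ := Finset.card_eq_one.mp h1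
    have key : ∀ g : G, g = (h : ℤ) • a ∨ g = -((h : ℤ) • a) := by
      intro g
      have hg : g ∈ signedSumset h ({a} : Finset G) := by rw [H]; trivial
      obtain ⟨c, hc1, hc2⟩ := hg
      rw [Finset.sum_singleton] at hc1 hc2
      rcases abs_choice (c a) with h3 | h3
      · left; rw [← hc2, ← hc1, h3]
      · right; rw [← hc2, ← hc1, h3, neg_smul, neg_neg]
    have h0 : (h : ℤ) • a = 0 := by
      rcases key 0 with h3 | h3
      · exact h3.symm
      · exact neg_eq_zero.mp h3.symm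
    have hall : ∀ g : G, g = 0 := by
      intro g
      rcases key g with h3 | h3
      · rw [h3, h0]
      · rw [h3, h0, neg_zero]
    rw [Finite.card_le_one_iff_subsingleton]
    exact ⟨fun x y => by rw [hall x, hall y]⟩

theorem phi_eq_two_iff [Finite G] {h : ℕ} (hh : 1 ≤ h) :
    phiPM G h = 2 ↔ ∃ a b : G, a ≠ b ∧ Spans h a b := by
  classical
  constructor
  · intro H
    have hne : {m | ∃ A : Finset G, A.card = m ∧ signedSumset h A = Set.univ}.Nonempty := by
      by_contra hcon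
      rw [Set.not_nonempty_iff_eq_empty] at hcon
      unfold phiPM at H
      rw [hcon, Nat.sInf_empty] at H
      omega
    have hmem := Nat.sInf_mem hne
    have H' : sInf {m | ∃ A : Finset G, A.card = m ∧ signedSumset h A = Set.univ} = 2 := H
    rw [H'] at hmem
    obtain ⟨A, hA, hspan⟩ := hmem
    obtain ⟨a, b, hab, rfl⟩ := Finset.card_eq_two.mp hA
    exact ⟨a, b, hab, (pair_spans_iff hab).mp hspan⟩
  · rintro ⟨a, b, hab, H⟩
    have hmem : 2 ∈ {m | ∃ A : Finset G, A.card = m ∧ signedSumset h A = Set.univ} :=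
      ⟨{a, b}, Finset.card_pair hab, (pair_spans_iff hab).mpr H⟩
    have hle : phiPM G h ≤ 2 := Nat.sInf_le hmem
    obtain ⟨A, hA, hspan⟩ := Nat.sInf_mem ⟨2, hmem⟩
    have hA' : A.card = phiPM G h := hA
    by_contra hne
    have h1 := card_le_one_of_span hh (by omega) hspan
    rw [Finite.card_le_one_iff_subsingleton] at h1
    exact hab (Subsingleton.elim a b)

/-- Necessary conditions. -/
theorem necessary [Finite G] {h : ℕ} (hh : 1 ≤ h) (H : phiPM G h = 2) :
    IsAddCyclic G ∧ 2 ≤ Nat.card G ∧ (Nat.card G ≤ 2 * h + 1 ∨ (Odd (Nat.card G) ∧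
      ((Odd h ∧ Nat.card G ≤ 3 * h) ∨ (Even h ∧ 2 * Nat.card G ≤ 5 * h)))) := by
  obtain ⟨a, b, hab, hs⟩ := (phi_eq_two_iff hh).mp H
  refine ⟨isAddCyclic_of_span hs, ?_, ?_⟩
  · by_contra hcon
    have h1 : Nat.card G ≤ 1 := by omega
    rw [Finite.card_le_one_iff_subsingleton] at h1
    exact hab (Subsingleton.elim a b)
  · rcases Nat.lt_or_ge (2 * h + 1) (Nat.card G) with h1 | h1
    · right
      obtain ⟨r, N, σ, D, hσ⟩ := hs.data h1
      obtain ⟨h2, h3⟩ := D.final hh (by exact_mod_cast h1) hσ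
      refine ⟨Nat.odd_iff.mpr (by omega), ?_⟩
      rcases h3 with ⟨h4, h5⟩ | ⟨h4, h5⟩
      · exact Or.inl ⟨Nat.odd_iff.mpr h4, by exact_mod_cast h5⟩
      · exact Or.inr ⟨Nat.even_iff.mpr h4, by exact_mod_cast h5⟩
    · exact Or.inl h1

/-- Sufficient conditions. -/
theorem sufficient [Finite G] {h : ℕ} (hh : 1 ≤ h) (hcyc : IsAddCyclic G)
    (h2 : 2 ≤ Nat.card G)
    (H : Nat.card G ≤ 2 * h + 1 ∨ (Odd (Nat.card G) ∧
      ((Odd h ∧ Nat.card G ≤ 3 * h) ∨ (h % 4 = 2 ∧ 2 * Nat.card G ≤ 5 * h)))) :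
    phiPM G h = 2 := by
  obtain ⟨g, hg⟩ := hcyc.exists_zsmul_surjective
  have hg' : ∀ z : G, z ∈ AddSubgroup.zmultiples g := fun z => by
    obtain ⟨k, hk⟩ := hg z
    exact AddSubgroup.mem_zmultiples_iff.mpr ⟨k, hk⟩
  rw [phi_eq_two_iff hh]
  have hnd : ∀ m : ℤ, 0 < m → m < (Nat.card G : ℤ) → ¬ (Nat.card G : ℤ) ∣ m :=
    fun m h0 h1 h => absurd (Int.le_of_dvd h0 h) (by omega)
  by_cases h1 : Nat.card G ≤ 2 * h + 1
  · refine ⟨(0 : ℤ) • g, (1 : ℤ) • g, ?_, ?_⟩
    · apply ne_of_not_dvd hg'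
      intro h3
      apply hnd 1 one_pos (by omega)
      have e : (1 : ℤ) = -(0 - 1) := by ring
      rw [e]; exact (dvd_neg).mpr h3
    · apply spans_of_rep hg'
      intro k hk0 hk1
      exact rep01 (by omega) hk0 hk1
  · rcases H with H | ⟨hodd, H⟩
    · exact absurd H h1
    rw [Nat.odd_iff] at hodd
    rcases H with ⟨h3, h4⟩ | ⟨h3, h4⟩
    · rw [Nat.odd_iff] at h3
      refine ⟨(1 : ℤ) • g, (3 : ℤ) • g, ?_, ?_⟩
      · apply ne_of_not_dvd hg'
        intro h5
        apply hnd 2 two_pos (by omega)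
        have e : (2 : ℤ) = -(1 - 3) := by ring
        rw [e]; exact (dvd_neg).mpr h5
      · apply spans_of_rep hg'
        apply rep_all (by omega)
        intro k hk1 hk2 hk3
        obtain ⟨x, y, hxy, hk⟩ := rep13 (h := h) (k := k) (by omega) hk1 hk2 (by omega)
        exact ⟨x, y, hxy, ⟨0, by rw [hk]; ring⟩⟩
    · refine ⟨(3 : ℤ) • g, (5 : ℤ) • g, ?_, ?_⟩
      · apply ne_of_not_dvd hg'
        intro h5
        apply hnd 2 two_pos (by omega)
        have e : (2 : ℤ) = -(3 - 5) := by ring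
        rw [e]; exact (dvd_neg).mpr h5
      · apply spans_of_rep hg'
        apply rep_all (by omega)
        intro k hk1 hk2 hk3
        exact rep35 (by omega) (by omega) (by omega) hk1 hk2 hk3

/-- Sufficient conditions for `4 ∣ h`. -/
theorem sufficient_four [Finite G] {h : ℕ} (hh : 1 ≤ h) (h4 : 4 ∣ h) (hcyc : IsAddCyclic G)
    (hodd : Odd (Nat.card G)) (h2 : 2 * h + 2 ≤ Nat.card G)
    (H : (∃ v m : ℕ, Odd m ∧ h = 2 ^ v * m ∧ 2 ^ v * Nat.card G ≤ (2 * 2 ^ v + 1) * h) ∨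
      (¬ 3 ∣ h ∧ Nat.card G % 3 = h % 3 ∧ 2 * Nat.card G ≤ 5 * h)) :
    phiPM G h = 2 := by
  obtain ⟨g, hg⟩ := hcyc.exists_zsmul_surjective
  have hg' : ∀ z : G, z ∈ AddSubgroup.zmultiples g := fun z => by
    obtain ⟨k, hk⟩ := hg z
    exact AddSubgroup.mem_zmultiples_iff.mpr ⟨k, hk⟩
  rw [phi_eq_two_iff hh]
  have hnd : ∀ m : ℤ, 0 < m → m < (Nat.card G : ℤ) → ¬ (Nat.card G : ℤ) ∣ m :=
    fun m h0 h1 h => absurd (Int.le_of_dvd h0 h) (by omega)
  rw [Nat.odd_iff] at hodd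
  rcases H with ⟨v, m, hm, hvm, hle⟩ | ⟨h3, hn3, hn5⟩
  · obtain ⟨v', rfl⟩ : ∃ v', v = v' + 1 := by
      refine ⟨v - 1, ?_⟩
      rcases Nat.eq_zero_or_pos v with h0 | h0
      · exfalso
        subst h0
        rw [Nat.odd_iff] at hm
        rw [pow_zero, one_mul] at hvm
        omega
      · omega
    rw [Nat.odd_iff] at hm
    have hw : ((2 : ℤ) ^ (v' + 1)) = 2 * 2 ^ v' := by ring
    refine ⟨(2 * (2 : ℤ) ^ (v' + 1) - 1) • g, (2 * (2 : ℤ) ^ (v' + 1) + 1) • g, ?_, ?_⟩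
    · apply ne_of_not_dvd hg'
      intro h5
      apply hnd 2 two_pos (by omega)
      have e : (2 : ℤ) = -(2 * (2 : ℤ) ^ (v' + 1) - 1 - (2 * (2 : ℤ) ^ (v' + 1) + 1)) := by ring
      rw [e]; exact (dvd_neg).mpr h5
    · apply spans_of_rep hg'
      apply rep_all (by omega)
      intro k hk1 hk2 hk3
      have hcop : IsCoprime (Nat.card G : ℤ) (2 * (2 : ℤ) ^ (v' + 1)) := by
        have e : 2 * (2 : ℤ) ^ (v' + 1) = 2 ^ (v' + 2) := by ring
        rw [e]
        apply IsCoprime.pow_right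
        refine ⟨1, -((Nat.card G : ℤ) / 2), ?_⟩
        omega
      have hm1 : 1 ≤ m := by omega
      refine rep_pow (h' := (m : ℤ)) hw (one_le_pow₀ (by norm_num)) hcop ?_ (by omega)
        (by omega) (by omega) ?_ hk1 hk2 hk3
      · rw [hvm]; push_cast; ring
      · exact_mod_cast hle
  · refine ⟨(1 : ℤ) • g, (5 : ℤ) • g, ?_, ?_⟩
    · apply ne_of_not_dvd hg'
      intro h5
      apply hnd 4 (by norm_num) (by omega)
      have e : (4 : ℤ) = -(1 - 5) := by ring
      rw [e]; exact (dvd_neg).mpr h5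
    · apply spans_of_rep hg'
      apply rep_all (by omega)
      intro k hk1 hk2 hk3
      exact rep15 (by omega) (by omega) (by omega) (by omega) (by omega) (by omega) hk1 hk2 hk3

end Pool.Agent.Lib.MP_3a897b_co
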