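import Mathlib
import Pool.Agent.Lib.MP_3a897b_co.Defs

/-!
# Rank bounds for signed sumsets
-/

namespace Pool.Agent.Lib.MP_3a897b_co

open Finset

/-- elements of the closure of a finite set are integer combinations -/
lemma mem_closure_finset_comb {G : Type*} [AddCommGroup G] (S : Finset G) (x : G) :
    x ∈ AddSubgroup.closure (S : Set G) ↔ ∃ c : G → ℤ, ∑ a ∈ S, c a • a = x := by
  classical
  constructor
  · intro hx
    induction hx using AddSubgroup.closure_induction with
    | mem y hy =>
      refine ⟨fun a => if a = y then 1 else 0, ?_⟩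
      rw [Finset.sum_eq_single y]
      · simp
      · intro b _ hb
        simp [hb]
      · intro h
        exact absurd (Finset.mem_coe.mp hy) h
    | zero => exact ⟨fun _ => 0, by simp⟩
    | add y z _ _ ihy ihz =>
      obtain ⟨c, hc⟩ := ihy
      obtain ⟨d, hd⟩ := ihz
      exact ⟨fun a => c a + d a, by rw [← hc, ← hd, ← Finset.sum_add_distrib]; simp [add_smul]⟩
    | neg y _ ihy =>
      obtain ⟨c, hc⟩ := ihy
      exact ⟨fun a => - c a, by rw [← hc, ← Finset.sum_neg_distrib]; simp⟩
  · rintro ⟨c, rfl⟩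
    exact AddSubgroup.sum_mem _ fun a ha =>
      AddSubgroup.zsmul_mem _ (AddSubgroup.subset_closure (Finset.mem_coe.mpr ha)) _

/-- product step: if `H + p G = G` for all primes `p` dividing `n = |G|` then `H = G`. -/
lemma eq_top_of_forall_prime {G : Type*} [AddCommGroup G] [Finite G] (H : AddSubgroup G)
    (hH : ∀ p : ℕ, p.Prime → p ∣ Nat.card G → ∀ g : G, ∃ x ∈ H, ∃ k : G, g = x + p • k) :
    H = ⊤ := by
  have key : ∀ m : ℕ, m ≠ 0 → (∀ p : ℕ, p.Prime → p ∣ m → p ∣ Nat.card G) →
      ∀ g : G, ∃ x ∈ H, ∃ k : G, g = x + m • k := by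
    intro m
    induction m using induction_on_primes with
    | zero => intro h; exact absurd rfl h
    | one => intro _ _ g; exact ⟨0, H.zero_mem, g, by simp⟩
    | prime_mul p m hp ih =>
      intro hm hd g
      have hm0 : m ≠ 0 := fun h => hm (by simp [h])
      obtain ⟨x, hx, k, rfl⟩ := hH p hp (hd p hp (Dvd.intro _ rfl)) g
      obtain ⟨y, hy, l, rfl⟩ := ih hm0 (fun q hq hqm => hd q hq (Dvd.dvd.mul_left hqm p)) k
      exact ⟨x + p • y, H.add_mem hx (H.nsmul_mem hy p), l, by
        rw [smul_add, ← mul_smul, add_assoc]⟩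
  rw [eq_top_iff]
  intro g _
  obtain ⟨x, hx, k, rfl⟩ := key (Nat.card G) Nat.card_pos.ne' (fun p _ h => h) g
  rw [card_nsmul_eq_zero', add_zero]
  exact hx

/-- if for every prime `p` dividing `|G|` some `s` elements generate `G` modulo `p G`, then
`s` elements generate `G`. -/
lemma exists_gen_of_forall_prime {G : Type*} [AddCommGroup G] [Finite G] (s : ℕ)
    (y : ℕ → Fin s → G)
    (hy : ∀ p : ℕ, p.Prime → p ∣ Nat.card G → ∀ g : G,
      ∃ x ∈ AddSubgroup.closure (Set.range (y p)), ∃ k : G, g = x + p • k) :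
    ∃ x : Fin s → G, AddSubgroup.closure (Set.range x) = ⊤ := by
  classical
  set P := (Nat.card G).primeFactors with hP
  let e : ℕ → ℕ := fun p => ∏ q ∈ P.erase p, q
  refine ⟨fun j => ∑ p ∈ P, e p • y p j, ?_⟩
  apply eq_top_of_forall_prime
  intro p hp hpn
  have hpP : p ∈ P := Nat.mem_primeFactors.mpr ⟨hp, hpn, Nat.card_pos.ne'⟩
  set H := AddSubgroup.closure (Set.range fun j => ∑ p ∈ P, e p • y p j) with hH
  -- `e p` is coprime to `p`
  have hcop : Nat.Coprime (e p) p := by
    apply Nat.Coprime.prod_left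
    intro q hq
    have hqp : q ≠ p := (Finset.mem_erase.mp hq).1
    have hqP : q.Prime := Nat.prime_of_mem_primeFactors (Finset.mem_erase.mp hq).2
    exact (Nat.coprime_primes hqP hp).mpr hqp
  -- for `q ≠ p`, `p ∣ e q`
  have hdiv : ∀ q ∈ P.erase p, p ∣ e q := by
    intro q hq
    apply Finset.dvd_prod_of_mem (fun q => q)
    exact Finset.mem_erase.mpr ⟨(Finset.mem_erase.mp hq).1.symm, hpP⟩
  let K : AddSubgroup G := H ⊔ (zsmulAddGroupHom (p : ℤ) : G →+ G).range
  have hK : ∀ g : G, g ∈ K → ∃ x ∈ H, ∃ k : G, g = x + p • k := by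
    intro g hg
    obtain ⟨x, hx, z, ⟨k, rfl⟩, rfl⟩ := AddSubgroup.mem_sup.mp hg
    exact ⟨x, hx, k, by simp⟩
  have hpK : ∀ k : G, p • k ∈ K := fun k => by
    apply AddSubgroup.mem_sup_right
    exact ⟨k, by simp⟩
  have hyK : ∀ j, y p j ∈ K := by
    intro j
    have h1 : (∑ q ∈ P, e q • y q j) ∈ K :=
      AddSubgroup.mem_sup_left (AddSubgroup.subset_closure ⟨j, rfl⟩)
    rw [← Finset.add_sum_erase P _ hpP] at h1
    have h2 : (∑ q ∈ P.erase p, e q • y q j) ∈ K := by
      apply AddSubgroup.sum_mem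
      intro q hq
      obtain ⟨t, ht⟩ := hdiv q hq
      rw [ht, mul_smul]
      exact hpK _
    have h3 : e p • y p j ∈ K := (AddSubgroup.add_mem_cancel_right K h2).mp h1
    have hb := Nat.gcd_eq_gcd_ab (e p) p
    rw [hcop.gcd_eq_one] at hb
    have h4 : y p j = (Nat.gcdA (e p) p) • (e p • y p j) + (Nat.gcdB (e p) p) • (p • y p j) := by
      have : y p j = ((1 : ℕ) : ℤ) • y p j := by simp
      rw [← natCast_zsmul, ← natCast_zsmul, ← mul_smul, ← mul_smul, ← add_smul]
      rw [show Nat.gcdA (e p) p * (e p : ℤ) + Nat.gcdB (e p) p * (p : ℤ) = ((1 : ℕ) : ℤ) by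
        rw [hb]; ring]
      simp
    rw [h4]
    exact K.add_mem (K.zsmul_mem h3 _) (K.zsmul_mem (hpK _) _)
  intro g
  apply hK
  obtain ⟨x, hx, k, rfl⟩ := hy p hp hpn g
  refine K.add_mem ?_ (hpK k)
  have : AddSubgroup.closure (Set.range (y p)) ≤ K := by
    rw [AddSubgroup.closure_le]
    rintro _ ⟨j, rfl⟩
    exact hyK j
  exact this hx

/-- a generating set with the least number of elements: for some prime `p`, all relations
between the elements have coefficients divisible by `p` -/
lemma exists_prime_dvd_relations {G : Type*} [AddCommGroup G] [Finite G] [AddGroup.FG G]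
    (A : Finset G)
    (hA : AddSubgroup.closure (A : Set G) = ⊤) (hcard : A.card = AddGroup.rank G)
    (hne : A.Nonempty) :
    ∃ p : ℕ, p.Prime ∧ ∀ c : G → ℤ, ∑ a ∈ A, c a • a = 0 → ∀ a ∈ A, (p : ℤ) ∣ c a := by
  classical
  by_contra hcon
  push Not at hcon
  have hpos : 0 < A.card := hne.card_pos
  -- choose relation for each prime
  have hch : ∀ p : ℕ, ∃ y : Fin (A.card - 1) → G, p.Prime → ∀ g : G,
      ∃ x ∈ AddSubgroup.closure (Set.range y), ∃ k : G, g = x + p • k := by
    intro p
    by_cases hp : p.Prime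
    · obtain ⟨c, hc, a, haA, hpa⟩ := hcon p hp
      have hce : (A.erase a).card = A.card - 1 := Finset.card_erase_of_mem haA
      let e := (A.erase a).equivFinOfCardEq hce
      refine ⟨fun j => (e.symm j : G), fun _ => ?_⟩
      have hrange : Set.range (fun j => ((e.symm j : _) : G)) = ((A.erase a : Finset G) : Set G) := by
        ext z
        constructor
        · rintro ⟨j, rfl⟩
          exact (e.symm j).2
        · intro hz
          exact ⟨e ⟨z, hz⟩, by simp⟩
      rw [hrange]
      set H := AddSubgroup.closure ((A.erase a : Finset G) : Set G) with hH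
      let K : AddSubgroup G := H ⊔ (zsmulAddGroupHom (p : ℤ) : G →+ G).range
      have hK : ∀ g : G, g ∈ K → ∃ x ∈ H, ∃ k : G, g = x + p • k := by
        intro g hg
        obtain ⟨x, hx, z, ⟨k, rfl⟩, rfl⟩ := AddSubgroup.mem_sup.mp hg
        exact ⟨x, hx, k, by simp⟩
      have hpK : ∀ k : G, p • k ∈ K := fun k => by
        apply AddSubgroup.mem_sup_right
        exact ⟨k, by simp⟩
      have h1 : c a • a ∈ K := by
        have h2 : c a • a = - ∑ b ∈ A.erase a, c b • b := by
          rw [← Finset.add_sum_erase A _ haA] at hc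
          exact eq_neg_of_add_eq_zero_left hc
        rw [h2]
        apply K.neg_mem
        apply AddSubgroup.mem_sup_left
        exact AddSubgroup.sum_mem _ fun b hb =>
          AddSubgroup.zsmul_mem _ (AddSubgroup.subset_closure (Finset.mem_coe.mpr hb)) _
      have hcop : IsCoprime (c a) (p : ℤ) :=
        ((Nat.prime_iff_prime_int.mp hp).coprime_iff_not_dvd.mpr hpa).symm
      have ha : a ∈ K := by
        obtain ⟨u, v, huv⟩ := hcop
        have h4 : a = u • (c a • a) + v • (p • a) := by
          rw [← natCast_zsmul, ← mul_smul, ← mul_smul, ← add_smul, huv, one_smul]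
        rw [h4]
        exact K.add_mem (K.zsmul_mem h1 _) (K.zsmul_mem (hpK _) _)
      intro g
      apply hK
      have hle : AddSubgroup.closure (A : Set G) ≤ K := by
        rw [AddSubgroup.closure_le]
        intro b hb
        by_cases hba : b = a
        · rw [hba]; exact ha
        · exact AddSubgroup.mem_sup_left (AddSubgroup.subset_closure
            (Finset.mem_coe.mpr (Finset.mem_erase.mpr ⟨hba, Finset.mem_coe.mp hb⟩)))
      rw [hA] at hle
      exact hle (AddSubgroup.mem_top g)
    · exact ⟨fun _ => 0, fun h => absurd h hp⟩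
  choose y hy using hch
  obtain ⟨x, hx⟩ := exists_gen_of_forall_prime (A.card - 1) y (fun p hp _ => hy p hp)
  have hr : AddGroup.rank G ≤ (Finset.univ.image x).card := by
    apply AddGroup.rank_le
    rw [Finset.coe_image, Finset.coe_univ, Set.image_univ]
    exact hx
  have h2 : (Finset.univ.image x).card ≤ A.card - 1 :=
    Finset.card_image_le.trans (by simp)
  omega

/-- the lower bound -/
lemma rank_lt_card_of_signedSumset {G : Type*} [AddCommGroup G] [Finite G] [AddGroup.FG G]
    [Nontrivial G] (h : ℕ) (A : Finset G) (hA : signedSumset h A = Set.univ) :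
    AddGroup.rank G + 1 ≤ A.card := by
  classical
  have hgen : AddSubgroup.closure (A : Set G) = ⊤ := by
    rw [eq_top_iff]
    intro g _
    have : g ∈ signedSumset h A := by rw [hA]; trivial
    obtain ⟨c, _, hc⟩ := this
    exact (mem_closure_finset_comb A g).mpr ⟨c, hc⟩
  have h1 : AddGroup.rank G ≤ A.card := AddGroup.rank_le hgen
  by_contra hlt
  have hcard : A.card = AddGroup.rank G := by omega
  have hne : A.Nonempty := by
    rw [← Finset.card_pos, hcard]
    exact AddGroup.rank_pos G
  obtain ⟨p, hp, hrel⟩ := exists_prime_dvd_relations A hgen hcard hne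
  obtain ⟨a, ha⟩ := hne
  have h0 : (0 : G) ∈ signedSumset h A := by rw [hA]; trivial
  have ha1 : a ∈ signedSumset h A := by rw [hA]; trivial
  obtain ⟨c, hc1, hc2⟩ := h0
  obtain ⟨d, hd1, hd2⟩ := ha1
  have hph : (p : ℤ) ∣ (h : ℤ) := by
    rw [← hc1]
    exact Finset.dvd_sum fun b hb => (dvd_abs _ _).mpr (hrel c hc2 b hb)
  have hrel2 := hrel (fun b => d b - if b = a then 1 else 0) (by
    simp only [sub_smul]
    rw [Finset.sum_sub_distrib, hd2, Finset.sum_eq_single a]
    · simp
    · intro b _ hb; simp [hb]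
    · intro h'; exact absurd ha h')
  have hda : (p : ℤ) ∣ d a - 1 := by simpa using hrel2 a ha
  have hdb : ∀ b ∈ A.erase a, (p : ℤ) ∣ |d b| := by
    intro b hb
    have := hrel2 b (Finset.mem_of_mem_erase hb)
    simp only [Finset.ne_of_mem_erase hb, if_false, sub_zero] at this
    exact (dvd_abs _ _).mpr this
  have h3 : (p : ℤ) ∣ |d a| := by
    rw [← Finset.add_sum_erase A _ ha] at hd1
    have h4 : (p : ℤ) ∣ ∑ b ∈ A.erase a, |d b| := Finset.dvd_sum hdb
    rw [← hd1] at hph
    exact (dvd_add_left h4).mp hph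
  have h5 : (p : ℤ) ∣ d a := (dvd_abs _ _).mp h3
  have h6 : (p : ℤ) ∣ 1 := by
    have := dvd_sub h5 hda
    simpa using this
  exact (Nat.prime_iff_prime_int.mp hp).not_isUnit (isUnit_of_dvd_one h6)

end Pool.Agent.Lib.MP_3a897b_co
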