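import Pool.Agent.Lib.MP_3a897b_co.RankLower

/-!
# Upper bounds: short words
-/

namespace Pool.Agent.Lib.MP_3a897b_co

open Finset

/-- word-length bound gives an exact spanning set with at most one more element -/
lemma exists_span_of_words {G : Type*} [AddCommGroup G] (h : ℕ) (S : Finset G)
    (hS : ∀ x : G, ∃ c : G → ℤ, ∑ a ∈ S, c a • a = x ∧ ∑ a ∈ S, |c a| ≤ h) :
    ∃ A : Finset G, A.card ≤ S.card + 1 ∧ signedSumset h A = Set.univ := by
  classical
  refine ⟨insert 0 S, Finset.card_insert_le _ _, ?_⟩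
  · show signedSumset h (insert 0 S) = Set.univ
    rw [Set.eq_univ_iff_forall]
    intro x
    obtain ⟨c, hc, hle⟩ := hS x
    have hle' : ∑ a ∈ S.erase 0, |c a| ≤ h :=
      (Finset.sum_le_sum_of_subset_of_nonneg (Finset.erase_subset _ _)
        (fun _ _ _ => abs_nonneg _)).trans hle
    have hx : ∑ a ∈ S.erase 0, c a • a = x := by
      rw [← hc]
      by_cases h0 : (0 : G) ∈ S
      · rw [← Finset.add_sum_erase S _ h0]; simp
      · rw [Finset.erase_eq_of_notMem h0]
    have hins : insert (0 : G) S = insert 0 (S.erase 0) := by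
      ext z; by_cases hz : z = 0 <;> simp [hz]
    rw [hins]
    refine ⟨fun a => if a = 0 then (h : ℤ) - ∑ b ∈ S.erase 0, |c b| else c a, ?_, ?_⟩
    · rw [Finset.sum_insert (Finset.notMem_erase _ _)]
      beta_reduce
      have : ∑ a ∈ S.erase 0, |if a = 0 then (h : ℤ) - ∑ b ∈ S.erase 0, |c b| else c a|
          = ∑ a ∈ S.erase 0, |c a| :=
        Finset.sum_congr rfl fun a ha => by rw [if_neg (Finset.ne_of_mem_erase ha)]
      rw [this]
      simp only [if_true]
      rw [abs_of_nonneg (by linarith)]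
      ring
    · rw [Finset.sum_insert (Finset.notMem_erase _ _)]
      have : ∑ a ∈ S.erase 0, (if a = 0 then (h : ℤ) - ∑ b ∈ S.erase 0, |c b| else c a) • a
          = ∑ a ∈ S.erase 0, c a • a :=
        Finset.sum_congr rfl fun a ha => by rw [if_neg (Finset.ne_of_mem_erase ha)]
      rw [this, hx, smul_zero, zero_add]

/-- word-length bound gives an upper bound for `phiPM` -/
lemma phiPM_le_of_words {G : Type*} [AddCommGroup G] (h : ℕ) (S : Finset G)
    (hS : ∀ x : G, ∃ c : G → ℤ, ∑ a ∈ S, c a • a = x ∧ ∑ a ∈ S, |c a| ≤ h) :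
    phiPM G h ≤ S.card + 1 := by
  obtain ⟨A, hA, hspan⟩ := exists_span_of_words h S hS
  have hle : phiPM G h ≤ A.card := Nat.sInf_le ⟨A, rfl, hspan⟩
  exact hle.trans hA

/-- exact spanning sets exist -/
lemma exists_span {G : Type*} [AddCommGroup G] [Finite G] (h : ℕ) (hh : 1 ≤ h) :
    ∃ A : Finset G, signedSumset h A = Set.univ := by
  classical
  have := Fintype.ofFinite G
  obtain ⟨A, _, hA⟩ := exists_span_of_words h (Finset.univ : Finset G) (fun x =>
    ⟨fun a => if a = x then 1 else 0, by simp, by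
      have : ∀ a : G, |(if a = x then (1 : ℤ) else 0)| = if a = x then 1 else 0 := by
        intro a; split_ifs <;> simp
      simp only [this]
      simp only [Finset.sum_ite_eq', Finset.mem_univ, if_true]
      exact_mod_cast hh⟩)
  exact ⟨A, hA⟩

/-- the lower bound for `phiPM` -/
lemma rank_lt_phiPM {G : Type*} [AddCommGroup G] [Finite G] [AddGroup.FG G] (h : ℕ)
    (hh : 1 ≤ h) : AddGroup.rank G + 1 ≤ phiPM G h := by
  have hne : {m | ∃ A : Finset G, A.card = m ∧ signedSumset h A = Set.univ}.Nonempty := by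
    obtain ⟨A, hA⟩ := exists_span (G := G) h hh
    exact ⟨A.card, A, rfl, hA⟩
  obtain ⟨A, hcard, hA⟩ := Nat.sInf_mem hne
  have hc : A.card = phiPM G h := hcard
  rw [← hc]
  rcases subsingleton_or_nontrivial G with hs | hs
  · rw [AddGroup.rank_eq_zero G]
    rw [zero_add, Nat.one_le_iff_ne_zero, Ne, Finset.card_eq_zero]
    rintro rfl
    have h0 : (0 : G) ∈ signedSumset h (∅ : Finset G) := by rw [hA]; trivial
    obtain ⟨c, hc1, _⟩ := h0
    rw [Finset.sum_empty] at hc1
    have : h = 0 := by exact_mod_cast hc1.symm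
    omega
  · exact rank_lt_card_of_signedSumset h A hA

lemma half_add_half_le {k m : ℕ} (hk : 2 ≤ k) (hm : 1 ≤ m) : k / 2 + m / 2 ≤ k * m / 2 := by
  rcases Nat.lt_or_ge m 2 with h | h
  · have : m = 1 := by omega
    subst this
    simp
  · have h1 : k + m ≤ k * m := by nlinarith [Nat.mul_le_mul hk h, Nat.zero_le k]
    omega

/-- balanced residues -/
lemma exists_balanced (k : ℕ) (hk : 1 ≤ k) (j : ℤ) :
    ∃ q j' : ℤ, j = k * q + j' ∧ |j'| ≤ ((k / 2 : ℕ) : ℤ) := by
  have : NeZero k := ⟨by omega⟩
  have h1 : (((j : ZMod k).valMinAbs : ℤ) : ZMod k) = (j : ZMod k) := ZMod.coe_valMinAbs _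
  have h2 : (k : ℤ) ∣ j - (j : ZMod k).valMinAbs := by
    have h4 := (ZMod.intCast_eq_intCast_iff_dvd_sub ((j : ZMod k).valMinAbs) j k).mp h1
    exact h4
  obtain ⟨q, hq⟩ := h2
  refine ⟨q, (j : ZMod k).valMinAbs, by linarith, ?_⟩
  have h3 := ZMod.natAbs_valMinAbs_le (j : ZMod k)
  rw [← Int.natCast_natAbs]
  exact_mod_cast h3

/-- short words in a group generated by a finite set no proper subset of which generates as much -/
lemma short_words {G : Type*} [AddCommGroup G] [Finite G] [DecidableEq G] (S : Finset G)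
    (hmin : ∀ T ⊆ S, ∀ a ∈ S, a ∉ T → a ∉ AddSubgroup.closure (T : Set G)) :
    ∀ T : Finset G, T ⊆ S → ∀ x ∈ AddSubgroup.closure (T : Set G),
      ∃ c : G → ℤ, ∑ a ∈ T, c a • a = x ∧
        ∑ a ∈ T, |c a| ≤ ((Nat.card (AddSubgroup.closure (T : Set G)) / 2 : ℕ) : ℤ) := by
  intro T
  induction T using Finset.induction_on with
  | empty =>
    intro _ x hx
    have hx0 : x = 0 := by simpa using hx
    exact ⟨fun _ => 0, by simp [hx0], by positivity⟩
  | insert a T haT ih =>
    intro hTS x hx
    have hT : T ⊆ S := (Finset.subset_insert a T).trans hTS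
    set H := AddSubgroup.closure (T : Set G) with hH
    set H' := AddSubgroup.closure ((insert a T : Finset G) : Set G) with hH'
    have haH : a ∉ H := hmin T hT a (hTS (Finset.mem_insert_self a T)) haT
    have hle : H ≤ H' := AddSubgroup.closure_mono (by
      rw [Finset.coe_insert]; exact Set.subset_insert _ _)
    have haH' : a ∈ H' := AddSubgroup.subset_closure (by simp)
    set k := H.relIndex H' with hk
    have hcard : k * Nat.card H = Nat.card H' := by
      have h1 := (H.addSubgroupOf H').card_mul_index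
      rw [Nat.card_congr (AddSubgroup.addSubgroupOfEquivOfLe hle).toEquiv] at h1
      rw [mul_comm]
      exact h1
    have hk0 : k ≠ 0 := by
      intro h0
      rw [h0, zero_mul] at hcard
      exact Nat.card_pos.ne' hcard.symm
    have hk1 : k ≠ 1 := by
      intro h1
      exact haH (AddSubgroup.relIndex_eq_one.mp h1 haH')
    have hka : k • a ∈ H := H.nsmul_relIndex_mem haH'
    obtain ⟨c, hc⟩ := (mem_closure_finset_comb _ x).mp hx
    rw [Finset.sum_insert haT] at hc
    obtain ⟨q, j', hj, hj'⟩ := exists_balanced k (by omega) (c a)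
    obtain ⟨d, hd, hdle⟩ := ih hT ((k * q : ℤ) • a + ∑ b ∈ T, c b • b) (by
      apply H.add_mem
      · rw [mul_comm, mul_smul]
        apply H.zsmul_mem
        rw [natCast_zsmul]
        exact hka
      · exact AddSubgroup.sum_mem _ fun b hb =>
          AddSubgroup.zsmul_mem _ (AddSubgroup.subset_closure (Finset.mem_coe.mpr hb)) _)
    refine ⟨fun b => if b = a then j' else d b, ?_, ?_⟩
    · rw [Finset.sum_insert haT]
      have : ∑ b ∈ T, (if b = a then j' else d b) • b = ∑ b ∈ T, d b • b :=
        Finset.sum_congr rfl fun b hb => by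
          rw [if_neg (fun hba : b = a => haT (hba ▸ hb))]
      rw [this, hd]
      simp only [if_true]
      rw [← hc, hj, add_smul]
      abel
    · rw [Finset.sum_insert haT]
      have : ∑ b ∈ T, |if b = a then j' else d b| = ∑ b ∈ T, |d b| :=
        Finset.sum_congr rfl fun b hb => by
          rw [if_neg (fun hba : b = a => haT (hba ▸ hb))]
      rw [this]
      simp only [if_true]
      rw [← hcard]
      have h5 := half_add_half_le (k := k) (m := Nat.card H) (by omega) Nat.card_pos
      have h6 : |j'| + ∑ b ∈ T, |d b| ≤ ((k / 2 + Nat.card H / 2 : ℕ) : ℤ) := by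
        rw [Nat.cast_add]; exact add_le_add hj' hdle
      exact h6.trans (by exact_mod_cast h5)

/-- the case `|G| ≤ 2h+1` -/
lemma phiPM_le_of_card {G : Type*} [AddCommGroup G] [Finite G] [AddGroup.FG G] (h : ℕ)
    (hn : Nat.card G ≤ 2 * h + 1) : phiPM G h ≤ AddGroup.rank G + 1 := by
  classical
  obtain ⟨S, hS, hgen⟩ := AddGroup.rank_spec G
  rw [← hS]
  apply phiPM_le_of_words
  have hmin : ∀ T ⊆ S, ∀ a ∈ S, a ∉ T → a ∉ AddSubgroup.closure (T : Set G) := by
    intro T hT a haS haT hacl
    have hsub : T ⊆ S.erase a := fun b hb =>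
      Finset.mem_erase.mpr ⟨fun hba => haT (hba ▸ hb), hT hb⟩
    have ha : a ∈ AddSubgroup.closure ((S.erase a : Finset G) : Set G) :=
      AddSubgroup.closure_mono (Finset.coe_subset.mpr hsub) hacl
    have htop : AddSubgroup.closure ((S.erase a : Finset G) : Set G) = ⊤ := by
      rw [eq_top_iff, ← hgen, AddSubgroup.closure_le]
      intro b hb
      by_cases hba : b = a
      · rw [hba]; exact ha
      · exact AddSubgroup.subset_closure
          (Finset.mem_coe.mpr (Finset.mem_erase.mpr ⟨hba, Finset.mem_coe.mp hb⟩))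
    have h1 := AddGroup.rank_le htop
    rw [Finset.card_erase_of_mem haS, ← hS] at h1
    have : 0 < S.card := Finset.card_pos.mpr ⟨a, haS⟩
    omega
  intro x
  obtain ⟨c, hc, hle⟩ := short_words S hmin S subset_rfl x (by rw [hgen]; trivial)
  refine ⟨c, hc, hle.trans ?_⟩
  rw [hgen]
  have : Nat.card (⊤ : AddSubgroup G) = Nat.card G := AddSubgroup.card_top
  rw [this]
  have : Nat.card G / 2 ≤ h := by omega
  exact_mod_cast this

/-- products of cyclic groups -/
lemma phiPM_le_of_pi {G : Type*} [AddCommGroup G] (h r : ℕ) (n : Fin r → ℕ)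
    (hn : ∀ i, 0 < n i) (e : G ≃+ (∀ i, ZMod (n i))) (hsum : ∑ i, n i / 2 ≤ h) :
    phiPM G h ≤ r + 1 := by
  classical
  have : ∀ i, NeZero (n i) := fun i => ⟨(hn i).ne'⟩
  let g : Fin r → G := fun i => e.symm (Pi.single i 1)
  have hcard : (Finset.univ.image g).card ≤ r := Finset.card_image_le.trans (by simp)
  refine (phiPM_le_of_words h (Finset.univ.image g) ?_).trans (by omega)
  intro x
  have hx : x = ∑ i, ((e x i).valMinAbs) • g i := by
    apply e.injective
    rw [map_sum]
    ext i
    simp only [map_zsmul, g, AddEquiv.apply_symm_apply, Finset.sum_apply, Pi.smul_apply]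
    rw [Finset.sum_eq_single i]
    · simp
    · intro j _ hj
      rw [Pi.single_eq_of_ne hj.symm]; simp
    · intro hi; exact absurd (Finset.mem_univ i) hi
  refine ⟨fun a => ∑ i ∈ Finset.univ.filter (fun i => g i = a), (e x i).valMinAbs, ?_, ?_⟩
  · have h1 : ∑ a ∈ Finset.univ.image g,
        (∑ i ∈ Finset.univ.filter (fun i => g i = a), (e x i).valMinAbs) • a
        = ∑ a ∈ Finset.univ.image g,
        ∑ i ∈ Finset.univ.filter (fun i => g i = a), (e x i).valMinAbs • g i := by
      refine Finset.sum_congr rfl fun a _ => ?_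
      rw [Finset.sum_smul]
      refine Finset.sum_congr rfl fun i hi => ?_
      rw [(Finset.mem_filter.mp hi).2]
    rw [h1, Finset.sum_fiberwise_of_maps_to
      (fun i _ => Finset.mem_image_of_mem g (Finset.mem_univ i)), ← hx]
  · have h1 : ∑ a ∈ Finset.univ.image g,
        |∑ i ∈ Finset.univ.filter (fun i => g i = a), (e x i).valMinAbs|
        ≤ ∑ a ∈ Finset.univ.image g,
        ∑ i ∈ Finset.univ.filter (fun i => g i = a), |(e x i).valMinAbs| :=
      Finset.sum_le_sum fun a _ => Finset.abs_sum_le_sum_abs _ _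
    refine h1.trans ?_
    rw [Finset.sum_fiberwise_of_maps_to (fun i _ => Finset.mem_image_of_mem g (Finset.mem_univ i))]
    refine le_trans (Finset.sum_le_sum (g := fun i => ((n i / 2 : ℕ) : ℤ)) fun i _ => ?_) ?_
    · rw [← Int.natCast_natAbs]
      exact_mod_cast ZMod.natAbs_valMinAbs_le (e x i)
    · exact_mod_cast hsum

end Pool.Agent.Lib.MP_3a897b_co
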