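import Pool.Agent.Lib.MP_3a897b_co.Core

/-!
# From a spanning pair to the arithmetic data
-/

namespace Pool.Agent.Lib.MP_3a897b_co

universe u
variable {G : Type u} [AddCommGroup G]

/-- Every element is `x a + y b` with `|x| + |y| = h`. -/
def Spans (h : ℕ) (a b : G) : Prop :=
  ∀ g : G, ∃ x y : ℤ, |x| + |y| = h ∧ x • a + y • b = g

theorem Spans.neg_left {h : ℕ} {a b : G} (H : Spans h a b) : Spans h (-a) b := by
  intro g
  obtain ⟨x, y, h1, h2⟩ := H g
  exact ⟨-x, y, by rwa [abs_neg], by rw [neg_smul_neg]; exact h2⟩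

theorem Spans.swap {h : ℕ} {a b : G} (H : Spans h a b) : Spans h b a := by
  intro g
  obtain ⟨x, y, h1, h2⟩ := H g
  exact ⟨y, x, by rwa [add_comm], by rwa [add_comm]⟩

theorem Spans.normal {h : ℕ} {a b : G} (H : Spans h a b) :
    ∃ (a b : G) (x y : ℤ), Spans h a b ∧ 0 ≤ y ∧ y ≤ x ∧ x + y = h ∧ x • a + y • b = 0 := by
  obtain ⟨x, y, hxy, h0⟩ := H 0
  -- make `x` nonnegative
  obtain ⟨a, x, H, hx, hxy, h0⟩ : ∃ (a : G) (x : ℤ), Spans h a b ∧ 0 ≤ x ∧ |x| + |y| = h ∧
      x • a + y • b = 0 := by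
    rcases le_total 0 x with hx | hx
    · exact ⟨a, x, H, hx, hxy, h0⟩
    · exact ⟨-a, -x, H.neg_left, by omega, by rwa [abs_neg], by rw [neg_smul_neg]; exact h0⟩
  -- make `y` nonnegative
  obtain ⟨b, y, H, hy, hxy, h0⟩ : ∃ (b : G) (y : ℤ), Spans h a b ∧ 0 ≤ y ∧ |x| + |y| = h ∧
      x • a + y • b = 0 := by
    rcases le_total 0 y with hy | hy
    · exact ⟨b, y, H, hy, hxy, h0⟩
    · exact ⟨-b, -y, H.swap.neg_left.swap, by omega, by rwa [abs_neg],
        by rw [neg_smul_neg]; exact h0⟩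
  rw [abs_of_nonneg hx, abs_of_nonneg hy] at hxy
  rcases le_total y x with hyx | hyx
  · exact ⟨a, b, x, y, H, hy, hyx, hxy, h0⟩
  · exact ⟨b, a, y, x, H.swap, hx, hyx, by omega, by rwa [add_comm]⟩

/-- Description of all elements. -/
theorem Spans.repr {h : ℕ} {a b : G} (H : Spans h a b) {x y : ℤ} (hy : 0 ≤ y) (hyx : y ≤ x)
    (hxy : x + y = h) (h0 : x • a + y • b = 0) (g : G) :
    (∃ j : ℤ, |j| ≤ x ∧ g = j • (b - a)) ∨
    (∃ i : ℕ, i ≤ h ∧ (g = (i : ℤ) • (-(a + b)) + x • (b - a) ∨
      g = -((i : ℤ) • (-(a + b)) + x • (b - a)))) := by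
  have ha : (h : ℤ) • a = (-y) • (b - a) := by
    rw [← hxy]
    have e : (x + y) • a - (-y) • (b - a) = x • a + y • b := by module
    rw [← sub_eq_zero, e, h0]
  have hb : (h : ℤ) • b = x • (b - a) := by
    rw [← hxy]
    have e : (x + y) • b - x • (b - a) = x • a + y • b := by module
    rw [← sub_eq_zero, e, h0]
  obtain ⟨u, v, huv, rfl⟩ := H g
  rcases le_total 0 u with hu | hu <;> rcases le_total 0 v with hv | hv
  · rw [abs_of_nonneg hu, abs_of_nonneg hv] at huv
    left
    refine ⟨v - y, by rw [abs_le]; constructor <;> omega, ?_⟩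
    have e : u • a + v • b = (u + v) • a + v • (b - a) := by module
    rw [e, huv, ha]
    module
  · rw [abs_of_nonneg hu, abs_of_nonpos hv] at huv
    right
    refine ⟨u.toNat, by omega, Or.inr ?_⟩
    rw [Int.toNat_of_nonneg hu, ← hb]
    have e : (h : ℤ) = u - v := by omega
    rw [e]
    module
  · rw [abs_of_nonpos hu, abs_of_nonneg hv] at huv
    right
    refine ⟨(-u).toNat, by omega, Or.inl ?_⟩
    rw [Int.toNat_of_nonneg (by omega), ← hb]
    have e : (h : ℤ) = -u + v := by omega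
    rw [e]
    module
  · rw [abs_of_nonpos hu, abs_of_nonpos hv] at huv
    left
    refine ⟨v + y, by rw [abs_le]; constructor <;> omega, ?_⟩
    have e : u • a + v • b = -((-u + -v) • a) + v • (b - a) := by module
    rw [e, huv, ha]
    module

/-- The difference `b - a` generates `G` if `|G| > 2 h`. -/
theorem Spans.gen [Finite G] {h : ℕ} {a b : G} (H : Spans h a b) {x y : ℤ} (hy : 0 ≤ y)
    (hyx : y ≤ x) (hxy : x + y = h) (h0 : x • a + y • b = 0) (hcard : 2 * h < Nat.card G) :
    ∀ g : G, g ∈ AddSubgroup.zmultiples (b - a) := by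
  classical
  have : Fintype G := Fintype.ofFinite G
  by_contra hno
  push Not at hno
  obtain ⟨g₀, hg₀⟩ := hno
  set D := AddSubgroup.zmultiples (b - a) with hD
  set s : G := -(a + b) with hs
  have hdD : ∀ j : ℤ, j • (b - a) ∈ D := fun j => AddSubgroup.mem_zmultiples_iff.mpr ⟨j, rfl⟩
  set k := addOrderOf (QuotientAddGroup.mk s : G ⧸ D) with hk
  have hkpos : 0 < k := addOrderOf_pos _
  have hkdvd : ∀ i : ℕ, i • s ∈ D ↔ k ∣ i := by
    intro i
    rw [hk, addOrderOf_dvd_iff_nsmul_eq_zero]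
    have e : i • (QuotientAddGroup.mk s : G ⧸ D) = QuotientAddGroup.mk (i • s) := rfl
    rw [e, QuotientAddGroup.eq_zero_iff]
  have hkh : k ∣ h := by
    rw [← hkdvd]
    have e : h • s = (y - x) • (b - a) := by
      rw [← natCast_zsmul, ← hxy, hs]
      have e1 : (x + y) • (-(a + b)) - (y - x) • (b - a) = (-2 : ℤ) • (x • a + y • b) := by
        module
      rw [← sub_eq_zero, e1, h0, smul_zero]
    rw [e]; exact hdD _
  obtain ⟨t, ht⟩ := hkh
  -- the indices outside
  let I : Finset ℕ := (Finset.Ioc 0 h).filter (fun i => ¬ k ∣ i)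
  have hI : I.card + t = h := by
    have h1 := Finset.card_filter_add_card_filter_not (s := Finset.Ioc 0 h) (fun i => k ∣ i)
    rw [Nat.Ioc_filter_dvd_card_eq_div, Nat.card_Ioc, Nat.sub_zero] at h1
    have h2 : h / k = t := by rw [ht]; exact Nat.mul_div_cancel_left t hkpos
    have h3 : I.card = ((Finset.Ioc 0 h).filter (fun i => ¬ k ∣ i)).card := rfl
    omega
  have hsub : (Finset.univ.filter (fun g : G => g ∉ D)) ⊆
      I.image (fun i : ℕ => (i : ℤ) • s + x • (b - a)) ∪
      I.image (fun i : ℕ => -((i : ℤ) • s + x • (b - a))) := by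
    intro g hg
    rw [Finset.mem_filter] at hg
    have hg' := hg.2
    rw [Finset.mem_union, Finset.mem_image, Finset.mem_image]
    rcases H.repr hy hyx hxy h0 g with ⟨j, _, hj⟩ | ⟨i, hi, hgi⟩
    · exact absurd (hj ▸ hdD j) hg'
    · have hiI : i ∈ I := by
        have hnd : ¬ k ∣ i := by
          intro hki
          rw [← hkdvd] at hki
          have h1 : (i : ℤ) • s ∈ D := by rw [natCast_zsmul]; exact hki
          have h2 : (i : ℤ) • s + x • (b - a) ∈ D := D.add_mem h1 (hdD x)
          rcases hgi with h3 | h3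
          · exact hg' (h3 ▸ h2)
          · exact hg' (h3 ▸ D.neg_mem h2)
        rw [Finset.mem_filter, Finset.mem_Ioc]
        refine ⟨⟨?_, hi⟩, hnd⟩
        rcases Nat.eq_zero_or_pos i with h1 | h1
        · exact absurd (h1 ▸ dvd_zero k) hnd
        · exact h1
      rcases hgi with h3 | h3
      · exact Or.inl ⟨i, hiI, h3.symm⟩
      · exact Or.inr ⟨i, hiI, h3.symm⟩
  have hk2 : 2 ≤ k := by
    by_contra hk2
    have hk1 : k = 1 := by omega
    have h1 : I = ∅ := by
      apply Finset.filter_eq_empty_iff.mpr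
      intro i _
      rw [hk1]; simp
    rw [h1, Finset.image_empty, Finset.image_empty, Finset.empty_union,
      Finset.subset_empty] at hsub
    have h2 : g₀ ∈ Finset.univ.filter (fun g : G => g ∉ D) := by simp [hg₀]
    rw [hsub] at h2
    exact absurd h2 (Finset.notMem_empty _)
  have h1 := Finset.card_le_card hsub
  have h2 := Finset.card_union_le (I.image (fun i : ℕ => (i : ℤ) • s + x • (b - a)))
    (I.image (fun i : ℕ => -((i : ℤ) • s + x • (b - a))))
  have h3 := Finset.card_image_le (s := I) (f := fun i : ℕ => (i : ℤ) • s + x • (b - a))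
  have h4 := Finset.card_image_le (s := I) (f := fun i : ℕ => -((i : ℤ) • s + x • (b - a)))
  have h5 : (Finset.univ.filter (fun g : G => g ∉ D)).card + Nat.card D = Nat.card G := by
    have h6 := Finset.card_filter_add_card_filter_not (s := (Finset.univ : Finset G))
      (fun g => g ∈ D)
    have h7 : (Finset.univ.filter (fun g : G => g ∈ D)).card = Nat.card D := by
      rw [Nat.card_eq_fintype_card, Fintype.card_subtype]
    rw [Finset.card_univ] at h6
    rw [Nat.card_eq_fintype_card (α := G), ← h7]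
    omega
  have h6 : Nat.card D * D.index = Nat.card G := D.card_mul_index
  have h7 : k ≤ D.index := by
    have : Nat.card (G ⧸ D) = D.index := rfl
    rw [← this]
    exact addOrderOf_le_card
  set c := Nat.card D with hc
  set q := D.index with hq
  have hcq : c * q ≤ 2 * I.card + c := by rw [h6]; omega
  have hIcard : I.card = (k - 1) * t := by
    obtain ⟨k', hk'⟩ : ∃ k', k = k' + 1 := ⟨k - 1, by omega⟩
    rw [hk', Nat.add_sub_cancel]
    rw [hk'] at ht
    nlinarith
  rw [← h6] at hcard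
  obtain ⟨k', hk'⟩ : ∃ k', k = k' + 2 := ⟨k - 2, by omega⟩
  rw [hk'] at hIcard ht h7
  have e1 : k' + 2 - 1 = k' + 1 := by omega
  rw [e1] at hIcard
  rw [hIcard] at hcq
  rw [ht] at hcard
  -- `c q ≤ 2 (k'+1) t + c`, `k'+2 ≤ q`, `2 (k'+2) t < c q`
  have h8 : c * (k' + 2) ≤ c * q := Nat.mul_le_mul_left _ h7
  nlinarith [Nat.mul_le_mul_left (k' + 2) hcq, Nat.mul_le_mul_left (k' + 1) hcard.le]

/-- The arithmetic data of a spanning pair. -/
theorem Spans.data [Finite G] {h : ℕ} {a b : G} (H : Spans h a b)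
    (hcard : 2 * h + 2 ≤ Nat.card G) :
    ∃ r N σ : ℤ, Data (Nat.card G : ℤ) h r N σ ∧ σ % 2 = 1 := by
  obtain ⟨a, b, x, y, H, hy, hyx, hxy, h0⟩ := H.normal
  have hgen := H.gen hy hyx hxy h0 (by omega)
  set d : G := b - a with hd
  have hord : addOrderOf d = Nat.card G := addOrderOf_eq_card_of_forall_mem_zmultiples hgen
  have hzero : ∀ m : ℤ, m • d = 0 ↔ (Nat.card G : ℤ) ∣ m := by
    intro m
    rw [← hord, addOrderOf_dvd_iff_zsmul_eq_zero]
  obtain ⟨α, hα⟩ := AddSubgroup.mem_zmultiples_iff.mp (hgen a)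
  have hs : -(a + b) = (-(2 * α + 1)) • d := by
    have e1 : b = a + d := by rw [hd]; abel
    rw [e1, ← hα]
    module
  set σ : ℤ := -(2 * α + 1) with hσ
  set n : ℤ := (Nat.card G : ℤ) with hn
  refine ⟨x - y, n - h - (x - y) - 1, σ, ⟨by ring, by omega, by omega, by omega, by omega, ?_, ?_⟩,
    by omega⟩
  · rw [← hzero, add_smul, mul_smul, ← hs]
    have e : (h : ℤ) • (-(a + b)) + (x - y) • d = (-2 : ℤ) • (x • a + y • b) := by
      rw [← hxy, hd]; module
    rw [e, h0, smul_zero]
  · intro κ hκ1 hκ2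
    rcases H.repr hy hyx hxy h0 ((x + κ) • d) with ⟨j, hj, hjg⟩ | ⟨i, hi, hgi⟩
    · exfalso
      rw [abs_le] at hj
      have h1 : n ∣ x + κ - j := by
        rw [← hzero, sub_smul, hjg, hd, sub_self]
      have h2 := Int.le_of_dvd (by omega) h1
      omega
    · rw [hs, ← mul_smul, ← hd] at hgi
      rcases hgi with hgi | hgi
      · left
        refine ⟨i, hi, emod_unique (by omega) (by omega) ?_⟩
        rw [← hzero]
        have e : (i * σ - κ) • d = ((i * σ) • d + x • d) - (x + κ) • d := by module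
        rw [e, hgi, sub_self]
      · right
        refine ⟨i, hi, emod_unique (by omega) (by omega) ?_⟩
        have h1 : n ∣ (i * σ + κ + 2 * x) := by
          rw [← hzero]
          have e : (i * σ + κ + 2 * x) • d = ((i * σ) • d + x • d) + (x + κ) • d := by module
          rw [e, hgi]; abel
        obtain ⟨c, hc⟩ := h1
        exact ⟨c - 1, by rw [mul_sub, ← hc]; omega⟩

end Pool.Agent.Lib.MP_3a897b_co
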