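import Pool.Agent.Lib.MP_3a897b_co.Defs
import Pool.Agent.Lib.MP_3a897b_co.Final

/-!
# Three elements

`{1, 2 h + 1, 2 h + 3}` for `h` and `n` odd, `{0, h, h + 1}` in general.
-/

set_option autoImplicit false

namespace Pool.Agent.Lib.MP_3a897b_co

universe u

/-- Odd numbers up to `2 h ^ 2 + 3 h` from `{1, 2 h + 1, 2 h + 3}`, for odd `h`. -/
theorem rep_three {h k : ℤ} (hh : h % 2 = 1) (hh0 : 1 ≤ h) (hk : k % 2 = 1) (hk1 : 1 ≤ k)
    (hk3 : k ≤ 2 * h ^ 2 + 3 * h) :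
    ∃ x y z : ℤ, |x| + |y| + |z| = h ∧ x * 1 + y * (2 * h + 1) + z * (2 * h + 3) = k := by
  obtain ⟨u, hu⟩ : ∃ u, u = (k + h) / (2 * h + 2) := ⟨_, rfl⟩
  obtain ⟨ρ, hρ⟩ : ∃ ρ, ρ = (k + h) % (2 * h + 2) := ⟨_, rfl⟩
  have h1 : (2 * h + 2) * u + ρ = k + h := by rw [hu, hρ]; exact Int.mul_ediv_add_emod _ _
  have h2 : 0 ≤ ρ := by rw [hρ]; exact Int.emod_nonneg _ (by omega)
  have h3 : ρ < 2 * h + 2 := by rw [hρ]; exact Int.emod_lt_of_pos _ (by omega)
  have h4 : 0 ≤ u := by rw [hu]; exact Int.ediv_nonneg (by omega) (by omega)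
  have h5 : u ≤ h := by
    by_contra h6
    have h7 : h + 1 ≤ u := by omega
    nlinarith
  have h6 : ρ % 2 = 0 := by
    have h7 : (2 * h + 2) * u = 2 * ((h + 1) * u) := by ring
    rw [h7] at h1
    omega
  -- the solution in the coordinates `u`, `v`
  have key : ∃ x v : ℤ, v % 2 = u % 2 ∧ x + v = ρ - h ∧
      ((|x| + u = h ∧ -u ≤ v ∧ v ≤ u) ∨ (|x| + v = h ∧ u ≤ v) ∨ (|x| - v = h ∧ v ≤ -u)) := by
    rcases Int.lt_or_le (ρ - h) (h - 2 * u) with h7 | h7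
    · rcases Int.lt_or_le (2 * u - h) (ρ - h) with h8 | h8
      · by_cases h9 : (ρ - 2 * u) % 4 = 0
        · refine ⟨ρ / 2 - h, ρ / 2, by omega, by omega, Or.inr (Or.inl ⟨?_, by omega⟩)⟩
          rw [abs_of_nonpos (by omega)]
          omega
        · refine ⟨ρ / 2, ρ / 2 - h, by omega, by omega, Or.inr (Or.inr ⟨?_, by omega⟩)⟩
          rw [abs_of_nonneg (by omega)]
          omega
      · refine ⟨-(h - u), ρ - u, by omega, by omega, Or.inl ⟨?_, by omega, by omega⟩⟩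
        rw [abs_of_nonpos (by omega)]
        omega
    · refine ⟨h - u, ρ - h - (h - u), by omega, by omega, Or.inl ⟨?_, by omega, by omega⟩⟩
      rw [abs_of_nonneg (by omega)]
      omega
  obtain ⟨x, v, hv, hxv, hc⟩ := key
  obtain ⟨y, hy⟩ : ∃ y, u - v = 2 * y := ⟨(u - v) / 2, by omega⟩
  obtain ⟨z, hz⟩ : ∃ z, u + v = 2 * z := ⟨(u + v) / 2, by omega⟩
  refine ⟨x, y, z, ?_, ?_⟩
  · rcases hc with ⟨e1, e2, e3⟩ | ⟨e1, e2⟩ | ⟨e1, e2⟩
    · rw [abs_of_nonneg (by omega : 0 ≤ y), abs_of_nonneg (by omega : 0 ≤ z)]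
      omega
    · rw [abs_of_nonpos (by omega : y ≤ 0), abs_of_nonneg (by omega : 0 ≤ z)]
      omega
    · rw [abs_of_nonneg (by omega : 0 ≤ y), abs_of_nonpos (by omega : z ≤ 0)]
      omega
  · have e1 : u = y + z := by omega
    have e2 : v = z - y := by omega
    have e3 : ρ = x + v + h := by omega
    rw [e3, e1, e2] at h1
    linear_combination h1

/-- Numbers up to `h ^ 2 + h` from at most `h` summands `h`, `h + 1`. -/
theorem rep_ball {h t : ℤ} (hh0 : 1 ≤ h) (ht0 : 0 ≤ t) (ht : t ≤ h ^ 2 + h) :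
    ∃ y z : ℤ, |y| + |z| ≤ h ∧ y * h + z * (h + 1) = t := by
  obtain ⟨s, hs⟩ : ∃ s, s = t / h := ⟨_, rfl⟩
  obtain ⟨z, hz⟩ : ∃ z, z = t % h := ⟨_, rfl⟩
  have h1 : h * s + z = t := by rw [hs, hz]; exact Int.mul_ediv_add_emod _ _
  have h2 : 0 ≤ z := by rw [hz]; exact Int.emod_nonneg _ (by omega)
  have h3 : z < h := by rw [hz]; exact Int.emod_lt_of_pos _ (by omega)
  have h4 : 0 ≤ s := by rw [hs]; exact Int.ediv_nonneg ht0 (by omega)
  have h5 : s ≤ h + 1 := by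
    by_contra h6
    have h7 : h + 2 ≤ s := by omega
    nlinarith
  rcases Int.lt_or_le h s with h6 | h6
  · have h7 : s = h + 1 := by omega
    subst h7
    refine ⟨0, h, by rw [abs_zero, abs_of_nonneg (by omega)]; omega, ?_⟩
    nlinarith
  · rcases Int.lt_or_le s z with h7 | h7
    · rcases Int.lt_or_le (h + s) (2 * z) with h8 | h8
      · refine ⟨s + 1 + h - z, z - h, ?_, ?_⟩
        · rw [abs_of_nonneg (by omega), abs_of_nonpos (by omega)]
          omega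
        · linear_combination h1
      · refine ⟨s - z, z, ?_, ?_⟩
        · rw [abs_of_nonpos (by omega), abs_of_nonneg (by omega)]
          omega
        · linear_combination h1
    · refine ⟨s - z, z, ?_, ?_⟩
      · rw [abs_of_nonneg (by omega), abs_of_nonneg (by omega)]
        omega
      · linear_combination h1

/-- Residues modulo `n ≤ 2 h ^ 2 + 2 h + 1` from `{0, h, h + 1}`. -/
theorem rep_zero {h n k : ℤ} (hh0 : 1 ≤ h) (hn : n ≤ 2 * h ^ 2 + 2 * h + 1) (hk0 : 0 ≤ k) (hkn : k < n) :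
    ∃ x y z : ℤ, |x| + |y| + |z| = h ∧ n ∣ x * 0 + y * h + z * (h + 1) - k := by
  rcases le_or_gt k (h ^ 2 + h) with h1 | h1
  · obtain ⟨y, z, h2, h3⟩ := rep_ball hh0 hk0 h1
    refine ⟨h - (|y| + |z|), y, z, ?_, ⟨0, by rw [mul_zero, mul_zero, zero_add, h3, sub_self]⟩⟩
    rw [abs_of_nonneg (by omega)]
    ring
  · obtain ⟨y, z, h2, h3⟩ := rep_ball (h := h) (t := n - k) hh0 (by omega) (by linarith)
    refine ⟨h - (|y| + |z|), -y, -z, ?_, ⟨-1, ?_⟩⟩
    · rw [abs_of_nonneg (by omega), abs_neg, abs_neg]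
      ring
    · linear_combination -h3

/-- From odd residues to all residues. -/
theorem rep_all3 {h n u v w : ℤ} (hn : n % 2 = 1)
    (H : ∀ k : ℤ, k % 2 = 1 → 1 ≤ k → k ≤ n →
      ∃ x y z : ℤ, |x| + |y| + |z| = h ∧ n ∣ x * u + y * v + z * w - k) :
    ∀ k : ℤ, 0 ≤ k → k < n → ∃ x y z : ℤ, |x| + |y| + |z| = h ∧ n ∣ x * u + y * v + z * w - k := by
  intro k hk0 hkn
  rcases Int.emod_two_eq_zero_or_one k with h0 | h1
  · obtain ⟨x, y, z, hxy, c, hc⟩ := H (n - k) (by omega) (by omega) (by omega)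
    refine ⟨-x, -y, -z, by rwa [abs_neg, abs_neg, abs_neg], ⟨-c - 1, ?_⟩⟩
    linear_combination (-1 : ℤ) * hc
  · exact H k h1 (by omega) (by omega)

variable {G : Type u} [AddCommGroup G]

theorem triple_spans [Finite G] [DecidableEq G] {g : G} (hg : ∀ z : G, z ∈ AddSubgroup.zmultiples g) {h : ℕ}
    {u v w : ℤ} (huv : u • g ≠ v • g) (huw : u • g ≠ w • g) (hvw : v • g ≠ w • g)
    (H : ∀ k : ℤ, 0 ≤ k → k < (Nat.card G : ℤ) →
      ∃ x y z : ℤ, |x| + |y| + |z| = h ∧ (Nat.card G : ℤ) ∣ x * u + y * v + z * w - k) :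
    signedSumset h ({u • g, v • g, w • g} : Finset G) = Set.univ := by
  have hord : addOrderOf g = Nat.card G := addOrderOf_eq_card_of_forall_mem_zmultiples hg
  have hzero : ∀ m : ℤ, m • g = 0 ↔ (Nat.card G : ℤ) ∣ m := by
    intro m
    rw [← hord, addOrderOf_dvd_iff_zsmul_eq_zero]
  have hpos : (0 : ℤ) < Nat.card G := by exact_mod_cast Nat.card_pos
  apply Set.eq_univ_of_forall
  intro t
  obtain ⟨k, hk⟩ := AddSubgroup.mem_zmultiples_iff.mp (hg t)
  obtain ⟨x, y, z, hxyz, hdvd⟩ := H (k % (Nat.card G : ℤ)) (Int.emod_nonneg _ hpos.ne')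
    (Int.emod_lt_of_pos _ hpos)
  have hsum : ∀ f : G → ℤ, ∀ F : G → G, (∑ a ∈ ({u • g, v • g, w • g} : Finset G), f a = f (u • g) + (f (v • g) + f (w • g)))
      ∧ (∑ a ∈ ({u • g, v • g, w • g} : Finset G), F a = F (u • g) + (F (v • g) + F (w • g))) := fun f F => by
    have h1 : u • g ∉ ({v • g, w • g} : Finset G) := by
      rw [Finset.mem_insert, Finset.mem_singleton, not_or]
      exact ⟨huv, huw⟩
    rw [Finset.sum_insert h1, Finset.sum_insert h1, Finset.sum_pair hvw, Finset.sum_pair hvw]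
    exact ⟨rfl, rfl⟩
  refine ⟨fun a => if a = u • g then x else if a = v • g then y else z, ?_, ?_⟩
  · rw [(hsum _ 0).1]
    dsimp only
    rw [if_pos rfl, if_neg huv.symm, if_pos rfl, if_neg huw.symm, if_neg hvw.symm, ← add_assoc]
    exact hxyz
  · rw [(hsum 0 _).2]
    dsimp only
    rw [if_pos rfl, if_neg huv.symm, if_pos rfl, if_neg huw.symm, if_neg hvw.symm, ← add_assoc]
    rw [← hk, ← sub_eq_zero, ← mul_smul, ← mul_smul, ← mul_smul, ← add_smul, ← add_smul, ← sub_smul, hzero]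
    have h1 : (Nat.card G : ℤ) ∣ k - k % (Nat.card G : ℤ) := Int.dvd_self_sub_emod
    have e : x * u + y * v + z * w - k = (x * u + y * v + z * w - k % (Nat.card G : ℤ)) -
        (k - k % (Nat.card G : ℤ)) := by ring
    rw [e]
    exact dvd_sub hdvd h1

/-- Lower bound. -/
theorem phi_eq_three [Finite G] {h : ℕ} (hh : 1 ≤ h) (hn : 2 ≤ Nat.card G)
    (h2 : phiPM G h ≠ 2) (H : ∃ A : Finset G, A.card = 3 ∧ signedSumset h A = Set.univ) : phiPM G h = 3 := by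
  have hle : phiPM G h ≤ 3 := Nat.sInf_le H
  obtain ⟨A, hA, hspan⟩ := Nat.sInf_mem (s := {m | ∃ A : Finset G, A.card = m ∧ signedSumset h A = Set.univ}) ⟨3, H⟩
  have hA' : A.card = phiPM G h := hA
  by_contra hne
  have h1 := card_le_one_of_span hh (by omega) hspan
  omega

/-- The cyclic groups with `φ± = 3` in the range. -/
theorem three [Finite G] {h : ℕ} (hh : 1 ≤ h) (hcyc : IsAddCyclic G)
    (H : (Odd h ∧ Odd (Nat.card G) ∧ 3 * h < Nat.card G ∧ Nat.card G ≤ 2 * h ^ 2 + 3 * h) ∨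
      (Even (Nat.card G) ∧ 2 * h + 2 ≤ Nat.card G ∧ Nat.card G ≤ 2 * h ^ 2 + 2 * h + 1) ∨
      (Even h ∧ Odd (Nat.card G) ∧ 5 * h < 2 * Nat.card G ∧ Nat.card G ≤ 2 * h ^ 2 + 2 * h + 1)) :
    phiPM G h = 3 := by
  classical
  obtain ⟨g, hg⟩ := hcyc.exists_zsmul_surjective
  have hg' : ∀ z : G, z ∈ AddSubgroup.zmultiples g := fun z => by
    obtain ⟨k, hk⟩ := hg z
    exact AddSubgroup.mem_zmultiples_iff.mpr ⟨k, hk⟩
  have hnd : ∀ m : ℤ, 0 < m → m < (Nat.card G : ℤ) → ¬ (Nat.card G : ℤ) ∣ m :=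
    fun m h0 h1 h => absurd (Int.le_of_dvd h0 h) (by omega)
  have hne : ∀ u v : ℤ, u < v → v - u < (Nat.card G : ℤ) → u • g ≠ v • g := fun u v h1 h2 => by
    apply ne_of_not_dvd hg'
    intro h3
    apply hnd (v - u) (by omega) h2
    have e : v - u = -(u - v) := by ring
    rw [e]
    exact (dvd_neg).mpr h3
  -- not two
  have hnot2 : phiPM G h ≠ 2 := by
    intro h2
    obtain ⟨-, -, h3⟩ := necessary hh h2
    rcases H with ⟨e1, e2, e3, e4⟩ | ⟨e1, e2, e3⟩ | ⟨e1, e2, e3, e4⟩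
    · rw [Nat.odd_iff] at e1 e2
      rcases h3 with h3 | ⟨h3, ⟨h4, h5⟩ | ⟨h4, h5⟩⟩
      · omega
      · omega
      · rw [Nat.even_iff] at h4
        omega
    · rw [Nat.even_iff] at e1
      rcases h3 with h3 | ⟨h3, -⟩
      · omega
      · rw [Nat.odd_iff] at h3
        omega
    · rw [Nat.even_iff] at e1
      rcases h3 with h3 | ⟨h3, ⟨h4, h5⟩ | ⟨h4, h5⟩⟩
      · omega
      · rw [Nat.odd_iff] at h4
        omega
      · omega
  have h0 : 2 ≤ Nat.card G := by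
    rcases H with ⟨e1, e2, e3, e4⟩ | ⟨e1, e2, e3⟩ | ⟨e1, e2, e3, e4⟩ <;> omega
  have hcard : ∀ u v w : ℤ, u • g ≠ v • g → u • g ≠ w • g → v • g ≠ w • g →
      ({u • g, v • g, w • g} : Finset G).card = 3 := fun u v w h1 h2 h3 =>
    Finset.card_eq_three.2 ⟨_, _, _, h1, h2, h3, rfl⟩
  refine phi_eq_three hh h0 hnot2 ?_
  by_cases hcase : Odd h ∧ Odd (Nat.card G)
  · obtain ⟨ho, hno⟩ := hcase
    rw [Nat.odd_iff] at ho hno
    have h3 : 3 * h < Nat.card G ∧ Nat.card G ≤ 2 * h ^ 2 + 3 * h := by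
      rcases H with ⟨e1, e2, e3, e4⟩ | ⟨e1, e2, e3⟩ | ⟨e1, e2, e3, e4⟩
      · exact ⟨e3, e4⟩
      · rw [Nat.even_iff] at e1
        omega
      · rw [Nat.even_iff] at e1
        omega
    obtain ⟨h3, h4⟩ := h3
    have h4' : (Nat.card G : ℤ) ≤ 2 * (h : ℤ) ^ 2 + 3 * h := by exact_mod_cast h4
    have h5 : 2 * h + 2 < Nat.card G := by
      rcases Nat.lt_or_ge 2 h with h6 | h6
      · omega
      · have h7 : h = 1 := by omega
        subst h7
        omega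
    have n1 := hne 1 (2 * h + 1) (by omega) (by omega)
    have n2 := hne 1 (2 * h + 3) (by omega) (by omega)
    have n3 := hne (2 * h + 1) (2 * h + 3) (by omega) (by omega)
    refine ⟨_, hcard _ _ _ n1 n2 n3, triple_spans hg' n1 n2 n3 ?_⟩
    apply rep_all3 (by omega)
    intro k hk1 hk2 hk3
    obtain ⟨x, y, z, hxyz, hk⟩ := rep_three (h := h) (k := k) (by omega) (by omega) hk1 hk2 (by omega)
    exact ⟨x, y, z, hxyz, ⟨0, by rw [hk]; ring⟩⟩
  · have h3 : 2 * h + 2 ≤ Nat.card G ∧ Nat.card G ≤ 2 * h ^ 2 + 2 * h + 1 := by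
      rcases H with ⟨e1, e2, e3, e4⟩ | ⟨e1, e2, e3⟩ | ⟨e1, e2, e3, e4⟩
      · exact absurd ⟨e1, e2⟩ hcase
      · exact ⟨e2, e3⟩
      · refine ⟨?_, e4⟩
        rw [Nat.even_iff] at e1
        omega
    obtain ⟨h3, h4⟩ := h3
    have h4' : (Nat.card G : ℤ) ≤ 2 * (h : ℤ) ^ 2 + 2 * h + 1 := by exact_mod_cast h4
    have n1 := hne 0 h (by omega) (by omega)
    have n2 := hne 0 (h + 1) (by omega) (by omega)
    have n3 := hne h (h + 1) (by omega) (by omega)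
    refine ⟨_, hcard _ _ _ n1 n2 n3, triple_spans hg' n1 n2 n3 ?_⟩
    intro k hk0 hk1
    exact rep_zero (by omega) h4' hk0 hk1

end Pool.Agent.Lib.MP_3a897b_co
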