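import Mathlib

/-!
# Counting visits of an arithmetic progression modulo `n` to a window
-/

namespace Pool.Agent.Lib.MP_3a897b_co

theorem emod_unique {n w z : ℤ} (h0 : 0 ≤ z) (h1 : z < n) (h2 : n ∣ w - z) : w % n = z := by
  have h3 : z % n = w % n := Int.modEq_iff_dvd.mpr h2
  rw [← h3, Int.emod_eq_of_lt h0 h1]

theorem emod_congr {n w z : ℤ} (h : n ∣ w - z) : w % n = z % n :=
  (Int.modEq_iff_dvd.mpr h : z ≡ w [ZMOD n]).symm

/-- Telescoping. -/
theorem sum_shift (g : ℕ → ℤ) (h p : ℕ) :
    ∑ i ∈ Finset.range h, (g (i + p) - g i) = ∑ i ∈ Finset.range p, (g (i + h) - g i) := by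
  have h1 := Finset.sum_range_add g h p
  have h2 := Finset.sum_range_add g p h
  rw [Finset.sum_sub_distrib, Finset.sum_sub_distrib]
  have h3 : ∑ i ∈ Finset.range h, g (i + p) = ∑ i ∈ Finset.range h, g (p + i) :=
    Finset.sum_congr rfl (fun i _ => by rw [add_comm])
  have h4 : ∑ i ∈ Finset.range p, g (i + h) = ∑ i ∈ Finset.range p, g (h + i) :=
    Finset.sum_congr rfl (fun i _ => by rw [add_comm])
  rw [h3, h4]
  rw [add_comm p h] at h2
  linarith

/-- The indices `i < h` at which the progression `i σ mod n` is in the window `[b, b + d)`. -/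
def hits (n : ℤ) (h : ℕ) (σ b d : ℤ) : Finset ℕ :=
  (Finset.range h).filter (fun i => b ≤ (i * σ) % n ∧ (i * σ) % n < b + d)

/-- The exceptional indices in the window formulas. -/
def exc (n : ℤ) (p : ℕ) (σ b r : ℤ) : Finset ℕ :=
  (Finset.range p).filter (fun i => (i * σ - b) % n < r)

theorem shift_emod {n r x : ℤ} (hn : 0 < n) (hr0 : 0 ≤ r) (hrn : r ≤ n) :
    (x - r) % n = x % n - r + n * (if x % n < r then 1 else 0) := by
  have h0 := Int.emod_nonneg x hn.ne'
  have h1 := Int.emod_lt_of_pos x hn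
  have h2 : n ∣ x - x % n := Int.dvd_self_sub_emod
  split_ifs with hc
  · apply emod_unique
    · omega
    · omega
    · obtain ⟨c, hc'⟩ := h2
      exact ⟨c - 1, by linarith [hc', mul_sub n c 1]⟩
  · apply emod_unique
    · omega
    · omega
    · obtain ⟨c, hc'⟩ := h2
      exact ⟨c, by linarith [hc']⟩

/-- Window formula for a negative step. -/
theorem window_neg {n r σ b d : ℤ} {h p : ℕ} (hn : 0 < n) (hr0 : 0 ≤ r) (hrn : r ≤ n)
    (hσ : n ∣ h * σ + r) (hp : n ∣ p * σ + d) (hd : 0 ≤ d) (hb : 0 ≤ b) (hbd : b + d ≤ n) :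
    n * (hits n h σ b d).card = h * d - p * r + n * (exc n p σ b r).card := by
  have h1 := sum_shift (fun i => (i * σ - b) % n) h p
  have h2 : ∀ i ∈ Finset.range h, (((i + p : ℕ) : ℤ) * σ - b) % n - ((i : ℤ) * σ - b) % n =
      - d + n * (if b ≤ ((i : ℤ) * σ) % n ∧ ((i : ℤ) * σ) % n < b + d then 1 else 0) := by
    intro i _
    have e1 : (((i + p : ℕ) : ℤ) * σ - b) % n = (((i : ℤ) * σ - b) - d) % n := by
      apply emod_congr
      obtain ⟨c, hc⟩ := hp
      refine ⟨c, ?_⟩
      push_cast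
      linarith [hc, add_mul (i : ℤ) p σ]
    rw [e1, shift_emod hn hd (by omega)]
    have e2 : (((i : ℤ) * σ - b) % n < d) ↔
        (b ≤ ((i : ℤ) * σ) % n ∧ ((i : ℤ) * σ) % n < b + d) := by
      have e3 := shift_emod (x := (i : ℤ) * σ) hn hb (by omega : b ≤ n)
      have e4 := Int.emod_nonneg ((i : ℤ) * σ) hn.ne'
      have e5 := Int.emod_lt_of_pos ((i : ℤ) * σ) hn
      rw [e3]
      split_ifs with hc
      · constructor
        · intro; omega
        · intro; omega
      · constructor
        · intro; omega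
        · intro; omega
    simp only [e2]
    ring
  have h3 : ∀ i ∈ Finset.range p, (((i + h : ℕ) : ℤ) * σ - b) % n - ((i : ℤ) * σ - b) % n =
      - r + n * (if ((i : ℤ) * σ - b) % n < r then 1 else 0) := by
    intro i _
    have e1 : (((i + h : ℕ) : ℤ) * σ - b) % n = (((i : ℤ) * σ - b) - r) % n := by
      apply emod_congr
      obtain ⟨c, hc⟩ := hσ
      refine ⟨c, ?_⟩
      push_cast
      linarith [hc, add_mul (i : ℤ) h σ]
    rw [e1, shift_emod hn hr0 hrn]
    ring
  rw [Finset.sum_congr rfl h2, Finset.sum_congr rfl h3, Finset.sum_add_distrib,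
    Finset.sum_add_distrib, Finset.sum_const, Finset.sum_const, ← Finset.mul_sum,
    ← Finset.mul_sum, Finset.sum_boole, Finset.sum_boole, Finset.card_range,
    Finset.card_range] at h1
  simp only [nsmul_eq_mul, hits, exc] at h1 ⊢
  linarith [h1]

theorem shift_emod_up {n r x : ℤ} (hn : 0 < n) (hr0 : 0 ≤ r) (hrn : r ≤ n) :
    (x + r) % n = x % n + r - n * (if n - r ≤ x % n then 1 else 0) := by
  have h0 := Int.emod_nonneg x hn.ne'
  have h1 := Int.emod_lt_of_pos x hn
  have h2 : n ∣ x - x % n := Int.dvd_self_sub_emod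
  split_ifs with hc
  · apply emod_unique
    · omega
    · omega
    · obtain ⟨c, hc'⟩ := h2
      exact ⟨c + 1, by linarith [hc', mul_add n c 1]⟩
  · apply emod_unique
    · omega
    · omega
    · obtain ⟨c, hc'⟩ := h2
      exact ⟨c, by linarith [hc']⟩

/-- Window formula for a positive step. -/
theorem window_pos {n r σ b d : ℤ} {h p : ℕ} (hn : 0 < n) (hr0 : 0 ≤ r) (hrn : r ≤ n)
    (hσ : n ∣ h * σ + r) (hp : n ∣ p * σ - d) (hd : 0 ≤ d) (hb : 1 ≤ b) (hbd : b + d ≤ n) :
    n * (hits n h σ b d).card = h * d + p * r - n * (exc n p σ (b + d) r).card := by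
  have h1 := sum_shift (fun i => (i * σ - (b + d)) % n) h p
  have h2 : ∀ i ∈ Finset.range h,
      (((i + p : ℕ) : ℤ) * σ - (b + d)) % n - ((i : ℤ) * σ - (b + d)) % n =
      d - n * (if b ≤ ((i : ℤ) * σ) % n ∧ ((i : ℤ) * σ) % n < b + d then 1 else 0) := by
    intro i _
    have e1 : (((i + p : ℕ) : ℤ) * σ - (b + d)) % n = (((i : ℤ) * σ - (b + d)) + d) % n := by
      apply emod_congr
      obtain ⟨c, hc⟩ := hp
      refine ⟨c, ?_⟩
      push_cast
      linarith [hc, add_mul (i : ℤ) p σ]
    rw [e1, shift_emod_up hn hd (by omega)]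
    have e2 : (n - d ≤ ((i : ℤ) * σ - (b + d)) % n) ↔
        (b ≤ ((i : ℤ) * σ) % n ∧ ((i : ℤ) * σ) % n < b + d) := by
      have e3 := shift_emod (x := (i : ℤ) * σ) hn (by omega : 0 ≤ b + d) hbd
      have e4 := Int.emod_nonneg ((i : ℤ) * σ) hn.ne'
      have e5 := Int.emod_lt_of_pos ((i : ℤ) * σ) hn
      rw [e3]
      split_ifs with hc
      · constructor
        · intro; omega
        · intro; omega
      · constructor
        · intro; omega
        · intro; omega
    simp only [e2]
    ring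
  have h3 : ∀ i ∈ Finset.range p,
      (((i + h : ℕ) : ℤ) * σ - (b + d)) % n - ((i : ℤ) * σ - (b + d)) % n =
      - r + n * (if ((i : ℤ) * σ - (b + d)) % n < r then 1 else 0) := by
    intro i _
    have e1 : (((i + h : ℕ) : ℤ) * σ - (b + d)) % n = (((i : ℤ) * σ - (b + d)) - r) % n := by
      apply emod_congr
      obtain ⟨c, hc⟩ := hσ
      refine ⟨c, ?_⟩
      push_cast
      linarith [hc, add_mul (i : ℤ) h σ]
    rw [e1, shift_emod hn hr0 hrn]
    ring
  rw [Finset.sum_congr rfl h2, Finset.sum_congr rfl h3, Finset.sum_sub_distrib,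
    Finset.sum_add_distrib, Finset.sum_const, Finset.sum_const, ← Finset.mul_sum,
    ← Finset.mul_sum, Finset.sum_boole, Finset.sum_boole, Finset.card_range,
    Finset.card_range] at h1
  simp only [nsmul_eq_mul, hits, exc] at h1 ⊢
  linarith [h1]

/-- The index `0` is not exceptional. -/
theorem exc_card_le {n r σ b : ℤ} {p : ℕ} (hp : 1 ≤ p) (hb : 1 ≤ b) (hbn : b < n)
    (hbr : b + r ≤ n) : (exc n p σ b r).card ≤ p - 1 := by
  have hsub : exc n p σ b r ⊆ (Finset.range p).erase 0 := by
    intro i hi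
    simp only [exc, Finset.mem_filter, Finset.mem_range] at hi
    rw [Finset.mem_erase, Finset.mem_range]
    refine ⟨?_, hi.1⟩
    rintro rfl
    have h1 : (((0 : ℕ) : ℤ) * σ - b) % n = n - b := by
      apply emod_unique
      · omega
      · omega
      · exact ⟨-1, by push_cast; ring⟩
    rw [h1] at hi
    omega
  refine (Finset.card_le_card hsub).trans ?_
  rw [Finset.card_erase_of_mem (Finset.mem_range.mpr (by omega)), Finset.card_range]

/-- The arithmetic data of an exact spanning set with two elements. -/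
structure Data (n : ℤ) (h : ℕ) (r N σ : ℤ) : Prop where
  hn : n = N + h + r + 1
  hN : 1 ≤ N
  hr0 : 0 ≤ r
  hr : r ≤ h
  hpar : (h + r) % 2 = 0
  hσ : n ∣ h * σ + r
  cov : ∀ κ : ℤ, 1 ≤ κ → κ ≤ N →
    (∃ i : ℕ, i ≤ h ∧ (i * σ) % n = κ) ∨ (∃ i : ℕ, i ≤ h ∧ (i * σ) % n = N + 1 - κ)

variable {n : ℤ} {h : ℕ} {r N σ : ℤ}

/-- A visited residue in `[1, N]` is visited at an index `< h`. -/
theorem Data.idx_lt (D : Data n h r N σ) {i : ℕ} (hi : i ≤ h) {κ : ℤ} (h1 : 1 ≤ κ)
    (h2 : κ ≤ N) (h3 : (i * σ) % n = κ) : i < h := by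
  rcases Nat.lt_or_ge i h with h4 | h4
  · exact h4
  · exfalso
    have h5 : i = h := le_antisymm hi h4
    subst h5
    have hn := D.hn
    have hr0 := D.hr0
    have hr := D.hr
    obtain ⟨c, hc⟩ := D.hσ
    by_cases hr' : r = 0
    · have h6 : ((i : ℤ) * σ) % n = 0 := by
        apply emod_unique
        · omega
        · omega
        · exact ⟨c, by linarith⟩
      omega
    · have h6 : ((i : ℤ) * σ) % n = n - r := by
        apply emod_unique
        · omega
        · omega
        · exact ⟨c - 1, by linarith [mul_sub n c 1]⟩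
      omega

/-- The covering condition gives: a window and its mirror image are visited at least as often
as the length of the window. -/
theorem Data.window (D : Data n h r N σ) {b d : ℤ} (hb : 1 ≤ b) (hd : 0 ≤ d)
    (hbd : b + d ≤ N + 1) :
    d ≤ (hits n h σ b d).card + (hits n h σ (N + 2 - b - d) d).card := by
  have hsub : Finset.Ico b (b + d) ⊆ (hits n h σ b d).image (fun i : ℕ => ((i : ℤ) * σ) % n) ∪
      (hits n h σ (N + 2 - b - d) d).image (fun i : ℕ => N + 1 - ((i : ℤ) * σ) % n) := by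
    intro κ hκ
    rw [Finset.mem_Ico] at hκ
    rw [Finset.mem_union, Finset.mem_image, Finset.mem_image]
    rcases D.cov κ (by omega) (by omega) with ⟨i, hi, hiκ⟩ | ⟨i, hi, hiκ⟩
    · left
      refine ⟨i, ?_, hiκ⟩
      rw [hits, Finset.mem_filter, Finset.mem_range]
      exact ⟨D.idx_lt hi (by omega) (by omega) hiκ, by omega, by omega⟩
    · right
      refine ⟨i, ?_, by omega⟩
      rw [hits, Finset.mem_filter, Finset.mem_range]
      exact ⟨D.idx_lt hi (by omega) (by omega) hiκ, by omega, by omega⟩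
  have h1 := Finset.card_le_card hsub
  have h2 := Finset.card_union_le
    ((hits n h σ b d).image (fun i : ℕ => ((i : ℤ) * σ) % n))
    ((hits n h σ (N + 2 - b - d) d).image (fun i : ℕ => N + 1 - ((i : ℤ) * σ) % n))
  have h3 := Finset.card_image_le (s := hits n h σ b d) (f := fun i : ℕ => ((i : ℤ) * σ) % n)
  have h4 := Finset.card_image_le (s := hits n h σ (N + 2 - b - d) d)
    (f := fun i : ℕ => N + 1 - ((i : ℤ) * σ) % n)
  rw [Int.card_Ico] at h1
  omega

/-- All hits. -/
theorem Data.half (D : Data n h r N σ) : N ≤ 2 * (hits n h σ 1 N).card := by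
  have h1 := D.window (b := 1) (d := N) le_rfl (by have := D.hN; omega) (by omega)
  have h2 : N + 2 - 1 - N = 1 := by ring
  rw [h2] at h1
  omega

/-- If the indices of any two hits differ by at least `p`, there are few hits. -/
theorem hits_sparse {p : ℕ} (hp : 1 ≤ p) (hh : 1 ≤ h)
    (hsep : ∀ i ∈ hits n h σ 1 N, ∀ j ∈ hits n h σ 1 N, i < j → i + p ≤ j) :
    p * (hits n h σ 1 N).card ≤ h + p - 2 := by
  have h0 : ∀ i ∈ hits n h σ 1 N, 1 ≤ i ∧ i < h := by
    intro i hi
    rw [hits, Finset.mem_filter, Finset.mem_range] at hi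
    refine ⟨?_, hi.1⟩
    rcases Nat.eq_zero_or_pos i with h0 | h0
    · subst h0
      simp at hi
    · exact h0
  have h1 : ((hits n h σ 1 N) ×ˢ (Finset.range p)).card ≤ (Finset.Ico 1 (h + p - 1)).card := by
    apply Finset.card_le_card_of_injOn (fun x => x.1 + x.2)
    · rintro ⟨i, j⟩ hx
      rw [Finset.mem_coe, Finset.mem_product, Finset.mem_range] at hx
      have h2 := h0 i hx.1
      have h3 : j < p := hx.2
      simp only [Finset.coe_Ico, Set.mem_Ico]
      omega
    · rintro ⟨i, j⟩ hx ⟨i', j'⟩ hx' heq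
      rw [Finset.mem_coe, Finset.mem_product, Finset.mem_range] at hx hx'
      simp only at heq hx hx'
      rcases Nat.lt_trichotomy i i' with h4 | h4 | h4
      · have := hsep i hx.1 i' hx'.1 h4
        omega
      · subst h4
        have : j = j' := by omega
        rw [this]
      · have := hsep i' hx'.1 i hx.1 h4
        omega
  rw [Finset.card_product, Finset.card_range, Nat.card_Ico, mul_comm] at h1
  omega

end Pool.Agent.Lib.MP_3a897b_co
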